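import Mathlib

/-!
# Fibred characters can be perturbed
-/

namespace Pool.Agent.V1122.Amalg

open Function

section

variable {K : Type*} [Group K]

/-- the integer value of a character -/
abbrev val (χ : K →* Multiplicative ℤ) (x : K) : ℤ := Multiplicative.toAdd (χ x)

lemma val_mul (χ : K →* Multiplicative ℤ) (x y : K) : val χ (x * y) = val χ x + val χ y := by
  simp [val]

lemma val_inv (χ : K →* Multiplicative ℤ) (x : K) : val χ x⁻¹ = - val χ x := by
  simp [val]

lemma val_zpow (χ : K →* Multiplicative ℤ) (x : K) (n : ℤ) : val χ (x ^ n) = n * val χ x := by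
  simp [val]

lemma val_one (χ : K →* Multiplicative ℤ) : val χ 1 = 0 := by
  simp [val]

lemma val_eq_zero {χ : K →* Multiplicative ℤ} {x : K} : val χ x = 0 ↔ χ x = 1 := by
  simp [val]

/-- a character from an additive function -/
def mkChar (f : K → ℤ) (hf : ∀ x y, f (x * y) = f x + f y) : K →* Multiplicative ℤ where
  toFun x := Multiplicative.ofAdd (f x)
  map_one' := by
    have := hf 1 1
    rw [mul_one] at this
    have h : f 1 = 0 := by omega
    rw [h]; rfl
  map_mul' x y := by rw [hf]; rfl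

lemma val_mkChar (f : K → ℤ) (hf : ∀ x y, f (x * y) = f x + f y) (x : K) :
    val (mkChar f hf) x = f x := rfl

/-- `P_{a,b}`: generated by the conjugates `x^j p x^{-j}`, `a ≤ j ≤ b`, `p ∈ S`. -/
def PP (x : K) (S : Set K) (a b : ℤ) : Subgroup K :=
  Subgroup.closure {y | ∃ j : ℤ, a ≤ j ∧ j ≤ b ∧ ∃ p ∈ S, y = x ^ j * p * x ^ (-j)}

lemma PP_mono (x : K) (S : Set K) {a b a' b' : ℤ} (ha : a' ≤ a) (hb : b ≤ b') :
    PP x S a b ≤ PP x S a' b' := by
  apply Subgroup.closure_mono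
  rintro y ⟨j, h1, h2, h⟩
  exact ⟨j, by omega, by omega, h⟩

lemma mem_PP (x : K) {S : Set K} {a b j : ℤ} (h1 : a ≤ j) (h2 : j ≤ b) {p : K} (hp : p ∈ S) :
    x ^ j * p * x ^ (-j) ∈ PP x S a b := Subgroup.subset_closure ⟨j, h1, h2, p, hp, rfl⟩

/-- conjugation by powers of `x` shifts -/
lemma PP_shift (x : K) (S : Set K) (a b k : ℤ) {y : K} (hy : y ∈ PP x S a b) :
    x ^ k * y * x ^ (-k) ∈ PP x S (a + k) (b + k) := by
  refine Subgroup.closure_induction (p := fun y _ => x ^ k * y * x ^ (-k) ∈ PP x S (a + k) (b + k))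
    ?_ ?_ ?_ ?_ hy
  · rintro _ ⟨j, h1, h2, p, hp, rfl⟩
    have e : x ^ k * (x ^ j * p * x ^ (-j)) * x ^ (-k) = x ^ (j + k) * p * x ^ (-(j + k)) := by
      group
    rw [e]
    exact mem_PP x (by omega) (by omega) hp
  · have e : x ^ k * 1 * x ^ (-k) = 1 := by group
    rw [e]; exact one_mem _
  · intro y z _ _ hy hz
    have e : x ^ k * (y * z) * x ^ (-k) = (x ^ k * y * x ^ (-k)) * (x ^ k * z * x ^ (-k)) := by
      group
    rw [e]; exact mul_mem hy hz
  · intro y _ hy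
    have e : x ^ k * y⁻¹ * x ^ (-k) = (x ^ k * y * x ^ (-k))⁻¹ := by group
    rw [e]; exact inv_mem hy

/-- `(q x)^j ∈ P x^j` for `j ≥ 0` -/
lemma pow_qx (x q : K) (S : Set K) {c : ℤ} (hc : 0 ≤ c) (hq : q ∈ PP x S (-c) c) (j : ℕ) :
    (q * x) ^ j * x ^ (-(j : ℤ)) ∈ PP x S (-c) (j + c) := by
  induction j with
  | zero => simp
  | succ j ih =>
    have e : (q * x) ^ (j + 1) * x ^ (-((j + 1 : ℕ) : ℤ)) =
        ((q * x) ^ j * x ^ (-(j : ℤ))) * (x ^ (j : ℤ) * q * x ^ (-(j : ℤ))) := by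
      rw [pow_succ]
      push_cast
      group
    rw [e]
    have h1 := PP_shift x S (-c) c j hq
    exact mul_mem (PP_mono x S le_rfl (by push_cast; omega) ih)
      (PP_mono x S (by omega) (by push_cast; omega) h1)

lemma pow_qx_neg (x q : K) (S : Set K) {c : ℤ} (hc : 0 ≤ c) (hq : q ∈ PP x S (-c) c) (j : ℕ) :
    ((q * x)⁻¹) ^ j * x ^ (j : ℤ) ∈ PP x S (-(j : ℤ) - c) c := by
  induction j with
  | zero => simp
  | succ j ih =>
    have e : ((q * x)⁻¹) ^ (j + 1) * x ^ ((j + 1 : ℕ) : ℤ) =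
        (((q * x)⁻¹) ^ j * x ^ (j : ℤ)) *
          (x ^ (-((j : ℤ) + 1)) * q⁻¹ * x ^ (-(-((j : ℤ) + 1)))) := by
      rw [pow_succ]
      push_cast
      group
    rw [e]
    have h1 := PP_shift x S (-c) c (-((j : ℤ) + 1)) (inv_mem hq)
    exact mul_mem (PP_mono x S (by push_cast; omega) (by omega) ih)
      (PP_mono x S (by push_cast; omega) (by omega) h1)

/-- `(q x)^j = u x^j` with `u ∈ P` -/
lemma zpow_qx (x q : K) (S : Set K) {c : ℤ} (hc : 0 ≤ c) (hq : q ∈ PP x S (-c) c) {a b j : ℤ}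
    (ha : a ≤ 0) (hb : 0 ≤ b) (haj : a ≤ j) (hjb : j ≤ b) :
    (q * x) ^ j * x ^ (-j) ∈ PP x S (a - c) (b + c) := by
  rcases le_total 0 j with hj | hj
  · obtain ⟨n, rfl⟩ := Int.eq_ofNat_of_zero_le hj
    have := pow_qx x q S hc hq n
    rw [zpow_natCast]
    exact PP_mono x S (by omega) (by omega) this
  · obtain ⟨n, hn⟩ := Int.eq_ofNat_of_zero_le (show 0 ≤ -j by omega)
    have hn' : j = -(n : ℤ) := by omega
    have := pow_qx_neg x q S hc hq n
    have e : (q * x) ^ j * x ^ (-j) = ((q * x)⁻¹) ^ n * x ^ (n : ℤ) := by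
      rw [hn', neg_neg, zpow_neg, inv_pow, zpow_natCast]
    rw [e]
    exact PP_mono x S (by omega) (by omega) this

/-- conjugation by `t` moves `P_{a,b}` a bounded amount -/
lemma PP_conj (x t : K) (S : Set K) {c : ℤ} (hc : 0 ≤ c)
    (hx : t * x * t⁻¹ * x⁻¹ ∈ PP x S (-c) c) (hS : ∀ p ∈ S, t * p * t⁻¹ ∈ PP x S (-c) c)
    {a b : ℤ} (ha : a ≤ 0) (hb : 0 ≤ b) {y : K} (hy : y ∈ PP x S a b) :
    t * y * t⁻¹ ∈ PP x S (a - c) (b + c) := by
  refine Subgroup.closure_induction (p := fun y _ => t * y * t⁻¹ ∈ PP x S (a - c) (b + c))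
    ?_ ?_ ?_ ?_ hy
  · rintro _ ⟨j, h1, h2, p, hp, rfl⟩
    set q := t * x * t⁻¹ * x⁻¹ with hq
    have e0 : t * x * t⁻¹ = q * x := by rw [hq]; group
    have e1 : t * (x ^ j * p * x ^ (-j)) * t⁻¹ =
        (t * x * t⁻¹) ^ j * (t * p * t⁻¹) * ((t * x * t⁻¹) ^ j)⁻¹ := by
      rw [conj_zpow]; group
    have e2 : (t * x * t⁻¹) ^ j * (t * p * t⁻¹) * ((t * x * t⁻¹) ^ j)⁻¹ =
        ((q * x) ^ j * x ^ (-j)) * (x ^ j * (t * p * t⁻¹) * x ^ (-j)) *
          ((q * x) ^ j * x ^ (-j))⁻¹ := by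
      rw [e0]; group
    rw [e1, e2]
    have h3 := zpow_qx x q S hc hx ha hb h1 h2
    have h4 := PP_shift x S (-c) c j (hS p hp)
    exact mul_mem (mul_mem h3 (PP_mono x S (by omega) (by omega) h4)) (inv_mem h3)
  · have e : t * 1 * t⁻¹ = 1 := by group
    rw [e]; exact one_mem _
  · intro y z _ _ hy hz
    have e : t * (y * z) * t⁻¹ = (t * y * t⁻¹) * (t * z * t⁻¹) := by group
    rw [e]; exact mul_mem hy hz
  · intro y _ hy
    have e : t * y⁻¹ * t⁻¹ = (t * y * t⁻¹)⁻¹ := by group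
    rw [e]; exact inv_mem hy

lemma PP_fg (x : K) {S : Set K} (hS : S.Finite) (a b : ℤ) :
    {y | ∃ j : ℤ, a ≤ j ∧ j ≤ b ∧ ∃ p ∈ S, y = x ^ j * p * x ^ (-j)}.Finite := by
  refine ((Set.finite_Icc a b).prod hS).image (fun q : ℤ × K => x ^ q.1 * q.2 * x ^ (-q.1))
    |>.subset ?_
  rintro y ⟨j, h1, h2, p, hp, rfl⟩
  exact ⟨(j, p), ⟨⟨h1, h2⟩, hp⟩, rfl⟩

end

/-- **Perturbation of fibred characters.** -/
theorem exists_perturb {K : Type*} [Group K] (χ ψ : K →* Multiplicative ℤ) (hχ : χ ≠ 1)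
    (hfg : χ.ker.FG) (F : Finset K) :
    ∃ θ : K →* Multiplicative ℤ, θ ≠ 1 ∧ θ.ker.FG ∧
      ∀ y ∈ F, (χ y ≠ 1 ∨ ψ y ≠ 1) → θ y ≠ 1 := by
  classical
  by_cases hN : ∀ y ∈ χ.ker, ψ y = 1
  · refine ⟨χ, hχ, hfg, fun y _ hy h => ?_⟩
    rcases hy with hy | hy
    · exact hy h
    · exact hy (hN y h)
  · push Not at hN
    -- generator of the image of `χ`
    obtain ⟨e, he⟩ := Int.subgroup_cyclic (AddSubgroup.closure (Set.range (val χ)))
    have hrange : ∀ y ∈ AddSubgroup.closure (Set.range (val χ)), ∃ k, val χ k = y := by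
      intro y hy
      refine AddSubgroup.closure_induction (p := fun y _ => ∃ k, val χ k = y) ?_ ?_ ?_ ?_ hy
      · rintro _ ⟨k, rfl⟩; exact ⟨k, rfl⟩
      · exact ⟨1, val_one χ⟩
      · rintro _ _ _ _ ⟨k, rfl⟩ ⟨k', rfl⟩; exact ⟨k * k', val_mul χ k k'⟩
      · rintro _ _ ⟨k, rfl⟩; exact ⟨k⁻¹, val_inv χ k⟩
    obtain ⟨t, ht⟩ := hrange e (by rw [he]; exact AddSubgroup.subset_closure rfl)
    have hdvd : ∀ k, ∃ a, val χ k = a * e := by
      intro k
      have : val χ k ∈ AddSubgroup.closure (Set.range (val χ)) := AddSubgroup.subset_closure ⟨k, rfl⟩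
      rw [he] at this
      obtain ⟨a, ha⟩ := AddSubgroup.mem_closure_singleton.mp this
      exact ⟨a, by rw [← ha, smul_eq_mul]⟩
    have he0 : e ≠ 0 := by
      rintro rfl
      apply hχ
      ext k
      obtain ⟨a, ha⟩ := hdvd k
      rw [mul_zero, val_eq_zero] at ha
      rw [ha]; rfl
    -- generator of the image of `ker χ` under `ψ`
    obtain ⟨d, hd⟩ := Int.subgroup_cyclic (AddSubgroup.closure (val ψ '' (χ.ker : Set K)))
    have hrange2 : ∀ y ∈ AddSubgroup.closure (val ψ '' (χ.ker : Set K)),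
        ∃ k ∈ χ.ker, val ψ k = y := by
      intro y hy
      refine AddSubgroup.closure_induction (p := fun y _ => ∃ k ∈ χ.ker, val ψ k = y)
        ?_ ?_ ?_ ?_ hy
      · rintro _ ⟨k, hk, rfl⟩; exact ⟨k, hk, rfl⟩
      · exact ⟨1, one_mem _, val_one ψ⟩
      · rintro _ _ _ _ ⟨k, hk, rfl⟩ ⟨k', hk', rfl⟩
        exact ⟨k * k', mul_mem hk hk', val_mul ψ k k'⟩
      · rintro _ _ ⟨k, hk, rfl⟩; exact ⟨k⁻¹, inv_mem hk, val_inv ψ k⟩
    obtain ⟨x0, hx0, hx0d⟩ := hrange2 d (by rw [hd]; exact AddSubgroup.subset_closure rfl)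
    have hdvd2 : ∀ k ∈ χ.ker, ∃ a, val ψ k = a * d := by
      intro k hk
      have : val ψ k ∈ AddSubgroup.closure (val ψ '' (χ.ker : Set K)) :=
        AddSubgroup.subset_closure ⟨k, hk, rfl⟩
      rw [hd] at this
      obtain ⟨a, ha⟩ := AddSubgroup.mem_closure_singleton.mp this
      exact ⟨a, by rw [← ha, smul_eq_mul]⟩
    have hd0 : d ≠ 0 := by
      rintro rfl
      obtain ⟨y, hy, hy'⟩ := hN
      obtain ⟨a, ha⟩ := hdvd2 y hy
      rw [mul_zero, val_eq_zero] at ha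
      exact hy' ha
    obtain ⟨S, hSK, hSf⟩ := (Subgroup.fg_iff _).mp hfg
    have hSmem : ∀ s ∈ S, s ∈ χ.ker := fun s hs => by rw [← hSK]; exact Subgroup.subset_closure hs
    -- the modified generators
    choose! ex hex using hdvd2
    let S' : Set K := (fun s => s * x0 ^ (-(ex s))) '' S
    have hS'f : S'.Finite := hSf.image _
    -- every element of `ker χ ⊓ ker ψ` is in some `P_{-R,R}`
    have hP : ∀ y ∈ χ.ker, ∃ R : ℕ, y * x0 ^ (-(ex y)) ∈ PP x0 S' (-(R : ℤ)) R := by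
      have key : ∀ y ∈ χ.ker, ∃ (R : ℕ) (n : ℤ), y * x0 ^ n ∈ PP x0 S' (-(R : ℤ)) R := by
        intro y hy
        rw [← hSK] at hy
        refine Subgroup.closure_induction
          (p := fun y _ => ∃ (R : ℕ) (n : ℤ), y * x0 ^ n ∈ PP x0 S' (-(R : ℤ)) R) ?_ ?_ ?_ ?_ hy
        · intro s hs
          refine ⟨0, -(ex s), ?_⟩
          have : x0 ^ (0 : ℤ) * (s * x0 ^ (-(ex s))) * x0 ^ (-(0 : ℤ)) ∈
              PP x0 S' (-((0 : ℕ) : ℤ)) ((0 : ℕ) : ℤ) :=
            mem_PP x0 (by simp) (by simp) ⟨s, hs, rfl⟩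
          simpa using this
        · exact ⟨0, 0, by simp⟩
        · rintro y z _ _ ⟨R, n, h⟩ ⟨R', n', h'⟩
          refine ⟨R + R' + n.natAbs, n' + n, ?_⟩
          have e : y * z * x0 ^ (n' + n) =
              (y * x0 ^ n) * (x0 ^ (-n) * (z * x0 ^ n') * x0 ^ (-(-n))) := by
            group
          rw [e]
          have h3 := PP_shift x0 S' _ _ (-n) h'
          refine mul_mem (PP_mono x0 S' ?_ ?_ h) (PP_mono x0 S' ?_ ?_ h3) <;> omega
        · rintro y _ ⟨R, n, h⟩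
          refine ⟨R + n.natAbs, -n, ?_⟩
          have e : y⁻¹ * x0 ^ (-n) = x0 ^ n * (y * x0 ^ n)⁻¹ * x0 ^ (-n) := by group
          rw [e]
          have h3 := PP_shift x0 S' _ _ n (inv_mem h)
          refine PP_mono x0 S' ?_ ?_ h3 <;> omega
      intro y hy
      obtain ⟨R, n, h⟩ := key y hy
      have hval : ∀ z ∈ PP x0 S' (-(R : ℤ)) R, val ψ z = 0 := by
        intro z hz
        refine Subgroup.closure_induction (p := fun z _ => val ψ z = 0) ?_ ?_ ?_ ?_ hz
        · rintro _ ⟨j, _, _, _, ⟨s, hs, rfl⟩, rfl⟩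
          simp only [val_mul, val_zpow, hx0d, hex s (hSmem s hs)]
          ring
        · exact val_one ψ
        · intro a b _ _ ha hb; rw [val_mul, ha, hb, add_zero]
        · intro a _ ha; rw [val_inv, ha, neg_zero]
      have h4 := hval _ h
      rw [val_mul, val_zpow, hx0d, hex y hy, ← add_mul] at h4
      have h5 : n = -(ex y) := by
        have := (mul_eq_zero.mp h4).resolve_right hd0
        omega
      exact ⟨R, h5 ▸ h⟩
    have hPP : ∀ y, y ∈ χ.ker → ψ y = 1 → ∃ R : ℕ, y ∈ PP x0 S' (-(R : ℤ)) R := by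
      intro y hy hy'
      obtain ⟨R, h⟩ := hP y hy
      have h1 : ex y = 0 := by
        have := hex y hy
        rw [val_eq_zero.mpr hy'] at this
        exact (mul_eq_zero.mp this.symm).resolve_right hd0
      rw [h1, neg_zero, zpow_zero, mul_one] at h
      exact ⟨R, h⟩
    have hS'ker : ∀ p ∈ S', p ∈ χ.ker ∧ ψ p = 1 := by
      rintro _ ⟨s, hs, rfl⟩
      refine ⟨mul_mem (hSmem s hs) (zpow_mem hx0 _), ?_⟩
      rw [← val_eq_zero, val_mul, val_zpow, hex s (hSmem s hs), hx0d]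
      ring
    -- conjugation keeps `ker χ ⊓ ker ψ`
    have hconj : ∀ u p : K, p ∈ χ.ker → ψ p = 1 → u * p * u⁻¹ ∈ χ.ker ∧ ψ (u * p * u⁻¹) = 1 := by
      intro u p hp hp'
      refine ⟨(MonoidHom.normal_ker χ).conj_mem p hp u, ?_⟩
      rw [map_mul, map_mul, map_inv, hp', mul_one, mul_inv_cancel]
    have hcx : ∀ u : K, u * x0 * u⁻¹ * x0⁻¹ ∈ χ.ker ∧ ψ (u * x0 * u⁻¹ * x0⁻¹) = 1 := by
      intro u
      refine ⟨mul_mem ((MonoidHom.normal_ker χ).conj_mem _ hx0 u) (inv_mem hx0), ?_⟩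
      rw [map_mul, map_mul, map_mul, map_inv, map_inv, mul_comm (ψ u) (ψ x0),
        mul_inv_cancel_right, mul_inv_cancel]
    -- a uniform constant
    have hconst : ∀ (T : Set K), T.Finite → (∀ y ∈ T, y ∈ χ.ker ∧ ψ y = 1) →
        ∃ R : ℕ, ∀ y ∈ T, y ∈ PP x0 S' (-(R : ℤ)) R := by
      intro T hT
      refine Set.Finite.induction_on
        (motive := fun T _ => (∀ y ∈ T, y ∈ χ.ker ∧ ψ y = 1) →
          ∃ R : ℕ, ∀ y ∈ T, y ∈ PP x0 S' (-(R : ℤ)) R) T hT ?_ ?_
      · intro _; exact ⟨0, by simp⟩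
      · intro y T _ _ ih h
        obtain ⟨R, hR⟩ := ih fun z hz => h z (Set.mem_insert_of_mem _ hz)
        obtain ⟨R', hR'⟩ := hPP y (h y (Set.mem_insert _ _)).1 (h y (Set.mem_insert _ _)).2
        refine ⟨R + R', ?_⟩
        intro z hz
        rcases Set.mem_insert_iff.mp hz with rfl | hz
        · exact PP_mono x0 S' (by push_cast; omega) (by push_cast; omega) hR'
        · exact PP_mono x0 S' (by push_cast; omega) (by push_cast; omega) (hR z hz)
    obtain ⟨c, hc⟩ := hconst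
      ({t * x0 * t⁻¹ * x0⁻¹, t⁻¹ * x0 * t⁻¹⁻¹ * x0⁻¹} ∪ (fun p => t * p * t⁻¹) '' S' ∪
        (fun p => t⁻¹ * p * t⁻¹⁻¹) '' S')
      (by
        refine Set.Finite.union (Set.Finite.union ?_ (hS'f.image _)) (hS'f.image _)
        exact (Set.finite_singleton _).insert _)
      (by
        rintro y ((hy | ⟨p, hp, rfl⟩) | ⟨p, hp, rfl⟩)
        · rcases hy with rfl | rfl
          · exact hcx t
          · exact hcx t⁻¹
        · exact hconj t p (hS'ker p hp).1 (hS'ker p hp).2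
        · exact hconj t⁻¹ p (hS'ker p hp).1 (hS'ker p hp).2)
    have hcx1 : t * x0 * t⁻¹ * x0⁻¹ ∈ PP x0 S' (-(c : ℤ)) c :=
      hc _ (Or.inl (Or.inl (Or.inl rfl)))
    have hcx2 : t⁻¹ * x0 * t⁻¹⁻¹ * x0⁻¹ ∈ PP x0 S' (-(c : ℤ)) c :=
      hc _ (Or.inl (Or.inl (Or.inr rfl)))
    have hcS1 : ∀ p ∈ S', t * p * t⁻¹ ∈ PP x0 S' (-(c : ℤ)) c :=
      fun p hp => hc _ (Or.inl (Or.inr ⟨p, hp, rfl⟩))
    have hcS2 : ∀ p ∈ S', t⁻¹ * p * t⁻¹⁻¹ ∈ PP x0 S' (-(c : ℤ)) c :=
      fun p hp => hc _ (Or.inr ⟨p, hp, rfl⟩)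
    -- the parameter `m`
    let B : ℕ := F.sum fun y => (e * val ψ y).natAbs
    have hB : ∀ y ∈ F, (e * val ψ y).natAbs ≤ B := fun y hy =>
      Finset.single_le_sum (f := fun y => (e * val ψ y).natAbs) (fun _ _ => Nat.zero_le _) hy
    let m : ℕ := c + 1 + B + (val ψ t).natAbs + 1
    have hmdef : m = c + 1 + B + (val ψ t).natAbs + 1 := rfl
    let s : K := t * x0 ^ (-(m : ℤ))
    let A : ℤ := d * m - val ψ t
    let θ : K →* Multiplicative ℤ := mkChar (fun k => A * val χ k + e * val ψ k) (by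
      intro k l
      rw [val_mul, val_mul]; ring)
    have hθ : ∀ k, val θ k = A * val χ k + e * val ψ k := fun k => rfl
    have hχx0 : val χ x0 = 0 := val_eq_zero.mpr hx0
    have hχs : val χ s = e := by
      rw [val_mul, val_zpow, hχx0, ht]; ring
    have hψs : val ψ s = val ψ t - m * d := by
      rw [val_mul, val_zpow, hx0d]; ring
    have hθs : val θ s = 0 := by
      rw [hθ, hχs, hψs]; ring
    -- the generating set
    let X : Set K := insert s
      {y | ∃ j : ℤ, -((c + m : ℕ) : ℤ) ≤ j ∧ j ≤ ((c + m : ℕ) : ℤ) ∧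
        ∃ p ∈ S', y = x0 ^ j * p * x0 ^ (-j)}
    have hXf : X.Finite := (PP_fg x0 hS'f _ _).insert s
    set D := Subgroup.closure X with hD
    have hsD : s ∈ D := Subgroup.subset_closure (Set.mem_insert _ _)
    have hstart : PP x0 S' (-((c + m : ℕ) : ℤ)) ((c + m : ℕ) : ℤ) ≤ D :=
      Subgroup.closure_mono (Set.subset_insert _ _)
    have hall : ∀ R : ℕ, PP x0 S' (-((c + m + R : ℕ) : ℤ)) ((c + m + R : ℕ) : ℤ) ≤ D := by
      intro R
      induction R with
      | zero => exact hstart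
      | succ R ih =>
        rw [PP, Subgroup.closure_le]
        rintro y ⟨j, h1, h2, p, hp, rfl⟩
        by_cases hj1 : j ≤ ((c + m + R : ℕ) : ℤ)
        · by_cases hj2 : -((c + m + R : ℕ) : ℤ) ≤ j
          · exact ih (mem_PP x0 hj2 hj1 hp)
          · -- `j = -(c+m+R+1)`
            have hj : j = -((c + m + R + 1 : ℕ) : ℤ) := by push_cast at *; omega
            have h3 : x0 ^ j * p * x0 ^ (-j) ∈ PP x0 S' j 0 :=
              mem_PP x0 le_rfl (by rw [hj]; push_cast; omega) hp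
            have h4 := PP_conj x0 t⁻¹ S' (c := c) (by omega) hcx2 hcS2
              (a := j) (b := 0) (by rw [hj]; push_cast; omega) le_rfl h3
            have h5 := PP_shift x0 S' _ _ (m : ℤ) h4
            have h6 : x0 ^ (m : ℤ) * (t⁻¹ * (x0 ^ j * p * x0 ^ (-j)) * t⁻¹⁻¹) *
                x0 ^ (-(m : ℤ)) ∈ D := by
              refine ih (PP_mono x0 S' ?_ ?_ h5) <;> omega
            have e : x0 ^ j * p * x0 ^ (-j) = s * (x0 ^ (m : ℤ) *
                (t⁻¹ * (x0 ^ j * p * x0 ^ (-j)) * t⁻¹⁻¹) * x0 ^ (-(m : ℤ))) * s⁻¹ := by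
              simp only [s]; group
            rw [SetLike.mem_coe, e]
            exact mul_mem (mul_mem hsD h6) (inv_mem hsD)
        · -- `j = c+m+R+1`
          have hj : j = ((c + m + R + 1 : ℕ) : ℤ) := by push_cast at *; omega
          have h3 : x0 ^ (j - m) * p * x0 ^ (-(j - m)) ∈ PP x0 S' 0 (j - m) :=
            mem_PP x0 (by rw [hj]; push_cast; omega) le_rfl hp
          have h4 := PP_conj x0 t S' (c := c) (by omega) hcx1 hcS1
            (a := 0) (b := j - m) le_rfl (by rw [hj]; push_cast; omega) h3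
          have h6 : t * (x0 ^ (j - m) * p * x0 ^ (-(j - m))) * t⁻¹ ∈ D := by
            refine ih (PP_mono x0 S' ?_ ?_ h4) <;> omega
          have e : x0 ^ j * p * x0 ^ (-j) =
              s⁻¹ * (t * (x0 ^ (j - m) * p * x0 ^ (-(j - m))) * t⁻¹) * s⁻¹⁻¹ := by
            simp only [s]; group
          rw [SetLike.mem_coe, e]
          exact mul_mem (mul_mem (inv_mem hsD) h6) (inv_mem (inv_mem hsD))
    have hker : θ.ker = D := by
      apply le_antisymm
      · intro k hk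
        have hk' : val θ k = 0 := val_eq_zero.mpr hk
        obtain ⟨a, ha⟩ := hdvd k
        have h1 : val χ (k * s ^ (-a)) = 0 := by
          rw [val_mul, val_zpow, hχs, ha]; ring
        have h2 : val θ (k * s ^ (-a)) = 0 := by
          rw [val_mul, val_zpow, hθs, hk']; ring
        have h3 : val ψ (k * s ^ (-a)) = 0 := by
          rw [hθ, h1, mul_zero, zero_add] at h2
          exact (mul_eq_zero.mp h2).resolve_left he0
        obtain ⟨R, hR⟩ := hPP _ (val_eq_zero.mp h1) (val_eq_zero.mp h3)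
        have h4 : k * s ^ (-a) ∈ D :=
          hall R (PP_mono x0 S' (by push_cast; omega) (by push_cast; omega) hR)
        have h5 : k = (k * s ^ (-a)) * s ^ a := by group
        rw [h5]
        exact mul_mem h4 (zpow_mem hsD a)
      · rw [hD, Subgroup.closure_le]
        rintro y (rfl | ⟨j, _, _, p, hp, rfl⟩)
        · exact val_eq_zero.mp hθs
        · apply val_eq_zero.mp
          have hp1 : val χ p = 0 := val_eq_zero.mpr (hS'ker p hp).1
          have hp2 : val ψ p = 0 := val_eq_zero.mpr (hS'ker p hp).2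
          rw [hθ]
          simp only [val_mul, val_zpow, hχx0, hp1, hp2, hx0d]
          ring
    refine ⟨θ, ?_, ?_, ?_⟩
    · intro h
      have h1 : val θ x0 = 0 := by rw [h]; rfl
      rw [hθ, hχx0, hx0d, mul_zero, zero_add] at h1
      rcases mul_eq_zero.mp h1 with h2 | h2
      · exact he0 h2
      · exact hd0 h2
    · rw [hker, Subgroup.fg_iff]
      exact ⟨X, rfl, hXf⟩
    · intro y hy hy' h
      have h1 : val θ y = 0 := val_eq_zero.mpr h
      rw [hθ] at h1
      by_cases hχy : val χ y = 0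
      · rw [hχy, mul_zero, zero_add] at h1
        have h2 := (mul_eq_zero.mp h1).resolve_left he0
        rcases hy' with h3 | h3
        · exact h3 (val_eq_zero.mp hχy)
        · exact h3 (val_eq_zero.mp h2)
      · have h2 : (A * val χ y).natAbs = (e * val ψ y).natAbs := by
          have : A * val χ y = -(e * val ψ y) := by linarith
          rw [this, Int.natAbs_neg]
        have h3 := hB y hy
        rw [← h2, Int.natAbs_mul] at h3
        have h4 : 1 ≤ (val χ y).natAbs := Int.natAbs_pos.mpr hχy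
        have h5 : A.natAbs ≤ B := le_trans (Nat.le_mul_of_pos_right _ h4) h3
        have h6 : m ≤ (d * m).natAbs := by
          rw [Int.natAbs_mul, Int.natAbs_natCast]
          exact Nat.le_mul_of_pos_left _ (Int.natAbs_pos.mpr hd0)
        have h7 : (d * m).natAbs ≤ A.natAbs + (val ψ t).natAbs := by
          have : d * m = A + val ψ t := by simp only [A]; ring
          rw [this]
          exact Int.natAbs_add_le _ _
        omega

end Pool.Agent.V1122.Amalg
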