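import Mathlib
import Pool.Agent.V1122.Amalg.Open

/-!
# Finite generation of stabilisers
-/

namespace Pool.Agent.V1122.Amalg

open Function

/-- the stabiliser of a point -/
def stb {Γ X : Type*} [Group Γ] (ν : Γ →* Equiv.Perm X) (w : X) : Subgroup Γ where
  carrier := {g | ν g w = w}
  one_mem' := by simp
  mul_mem' := by
    intro a b ha hb
    change ν (a * b) w = w
    rw [map_mul, Equiv.Perm.mul_apply, hb, ha]
  inv_mem' := by
    intro a ha
    change ν a⁻¹ w = w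
    rw [map_inv, Equiv.Perm.inv_eq_iff_eq]
    exact ha.symm

lemma mem_stb {Γ X : Type*} [Group Γ] {ν : Γ →* Equiv.Perm X} {w : X} {g : Γ} :
    g ∈ stb ν w ↔ ν g w = w := Iff.rfl

theorem stab_fg {Γ X : Type*} [Group Γ] (ν : Γ →* Equiv.Perm X) {ι : Type*} [Finite ι]
    (A : ι → Subgroup Γ) (B : Subgroup Γ) (hB : ∀ i, B ≤ A i)
    (hgen : ∀ P : Γ → Prop, P 1 → (∀ i, ∀ a ∈ A i, ∀ g, P g → P (a * g)) → ∀ g, P g) (i₀ : ι)
    (W : Set X) (hWf : W.Finite) (hW : ∀ x, ∃ b ∈ B, ν b x ∈ W)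
    (hfg : ∀ i, ∀ w ∈ W, (A i ⊓ stb ν w).FG) (w₀ : X) (hw₀ : w₀ ∈ W) : (stb ν w₀).FG := by
  classical
  let W' : Set X := {w | w ∈ W ∧ ∃ p, ν p w₀ = w}
  have hW'f : W'.Finite := hWf.subset fun w hw => hw.1
  have hw₀' : w₀ ∈ W' := ⟨hw₀, 1, by simp⟩
  have hp : ∀ w : X, ∃ p : Γ, w ∈ W' → ν p w₀ = w := by
    intro w
    by_cases h : w ∈ W'
    · obtain ⟨p, hp⟩ := h.2
      exact ⟨p, fun _ => hp⟩
    · exact ⟨1, fun h' => absurd h' h⟩
  choose p hp using hp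
  have hp' : ∀ w ∈ W', ν (p w)⁻¹ w = w₀ := by
    intro w hw
    rw [map_inv, Equiv.Perm.inv_eq_iff_eq]
    exact (hp w hw).symm
  have ha : ∀ (i : ι) (w w' : X), ∃ a : Γ, (w ∈ W' → w' ∈ W' → ν a w = w') ∧
      ((∃ a ∈ A i, ν a w = w') → a ∈ A i) := by
    intro i w w'
    by_cases h : ∃ a ∈ A i, ν a w = w'
    · obtain ⟨a, ha, ha'⟩ := h
      exact ⟨a, fun _ _ => ha', fun _ => ha⟩
    · refine ⟨p w' * (p w)⁻¹, fun hw hw' => ?_, fun h' => absurd h' h⟩
      rw [map_mul, Equiv.Perm.mul_apply, hp' w hw, hp w' hw']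
  choose a ha ha' using ha
  have hT : ∀ (i : ι) (w : X), ∃ T : Set Γ, T.Finite ∧ (w ∈ W' →
      Subgroup.closure T = A i ⊓ stb ν w) := by
    intro i w
    by_cases h : w ∈ W'
    · obtain ⟨T, hT, hTf⟩ := (Subgroup.fg_iff _).mp (hfg i w h.1)
      exact ⟨T, hTf, fun _ => hT⟩
    · exact ⟨∅, Set.finite_empty, fun h' => absurd h' h⟩
  choose T hTf hT using hT
  let S₁ : Set Γ := ⋃ i, ⋃ w ∈ W', (fun s => (p w)⁻¹ * s * p w) '' (T i w)
  let S₂ : Set Γ := ⋃ i, ⋃ w ∈ W', ⋃ w' ∈ W', {(p w')⁻¹ * a i w w' * p w}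
  let S : Set Γ := S₁ ∪ S₂ ∪ {p w₀}
  have hSf : S.Finite := by
    refine Set.Finite.union (Set.Finite.union ?_ ?_) (Set.finite_singleton _)
    · exact Set.finite_iUnion fun i => hW'f.biUnion fun w _ => (hTf i w).image _
    · exact Set.finite_iUnion fun i => hW'f.biUnion fun w _ => hW'f.biUnion fun w' _ =>
        Set.finite_singleton _
  set D := Subgroup.closure S with hD
  have hkey1 : ∀ i, ∀ w ∈ W', ∀ s ∈ A i ⊓ stb ν w, (p w)⁻¹ * s * p w ∈ D := by
    intro i w hw s hs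
    rw [← hT i w hw] at hs
    refine Subgroup.closure_induction (p := fun s _ => (p w)⁻¹ * s * p w ∈ D) ?_ ?_ ?_ ?_ hs
    · intro x hx
      refine Subgroup.subset_closure (Or.inl (Or.inl ?_))
      exact Set.mem_iUnion.mpr ⟨i, Set.mem_iUnion₂.mpr ⟨w, hw, x, hx, rfl⟩⟩
    · have e : (p w)⁻¹ * 1 * p w = 1 := by group
      rw [e]; exact one_mem _
    · intro x y _ _ hx hy
      have e : (p w)⁻¹ * (x * y) * p w = ((p w)⁻¹ * x * p w) * ((p w)⁻¹ * y * p w) := by group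
      rw [e]; exact mul_mem hx hy
    · intro x _ hx
      have e : (p w)⁻¹ * x⁻¹ * p w = ((p w)⁻¹ * x * p w)⁻¹ := by group
      rw [e]; exact inv_mem hx
  have hkey2 : ∀ i, ∀ b ∈ A i, ∀ w ∈ W', ∀ w' ∈ W', ν b w = w' → (p w')⁻¹ * b * p w ∈ D := by
    intro i b hb w hw w' hw' h
    have h1 : a i w w' ∈ A i := ha' i w w' ⟨b, hb, h⟩
    have h2 : (a i w w')⁻¹ * b ∈ A i ⊓ stb ν w := by
      refine Subgroup.mem_inf.mpr ⟨mul_mem (inv_mem h1) hb, ?_⟩
      change ν ((a i w w')⁻¹ * b) w = w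
      rw [map_mul, Equiv.Perm.mul_apply, h, map_inv, Equiv.Perm.inv_eq_iff_eq]
      exact (ha i w w' hw hw').symm
    have e : (p w')⁻¹ * b * p w = ((p w')⁻¹ * a i w w' * p w) *
        ((p w)⁻¹ * ((a i w w')⁻¹ * b) * p w) := by group
    rw [e]
    refine mul_mem (Subgroup.subset_closure (Or.inl (Or.inr ?_))) (hkey1 i w hw _ h2)
    exact Set.mem_iUnion.mpr ⟨i, Set.mem_iUnion₂.mpr ⟨w, hw, Set.mem_iUnion₂.mpr ⟨w', hw', rfl⟩⟩⟩
  have hp0 : p w₀ ∈ D := Subgroup.subset_closure (Or.inr rfl)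
  have hkey : ∀ g : Γ, ∀ b ∈ B, ∀ w ∈ W', ν b (ν g w₀) = w → (p w)⁻¹ * b * g ∈ D := by
    apply hgen (fun g => ∀ b ∈ B, ∀ w ∈ W', ν b (ν g w₀) = w → (p w)⁻¹ * b * g ∈ D)
    · intro b hb w hw h
      rw [map_one, Equiv.Perm.one_apply] at h
      have h1 := hkey2 i₀ b (hB i₀ hb) w₀ hw₀' w hw h
      have e : (p w)⁻¹ * b * 1 = ((p w)⁻¹ * b * p w₀) * (p w₀)⁻¹ := by group
      rw [e]; exact mul_mem h1 (inv_mem hp0)
    · intro i c hc g ih b hb w hw h
      obtain ⟨b₁, hb₁, h₁⟩ := hW (ν g w₀)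
      have h₁' : ν b₁ (ν g w₀) ∈ W' := ⟨h₁, b₁ * g, by rw [map_mul, Equiv.Perm.mul_apply]⟩
      have h2 := ih b₁ hb₁ _ h₁' rfl
      have h3 := hkey2 i (b * c * b₁⁻¹) (mul_mem (mul_mem (hB i hb) hc) (inv_mem (hB i hb₁)))
        _ h₁' w hw (by
          have e1 : ν (b * c * b₁⁻¹) (ν b₁ (ν g w₀)) = ν b (ν (c * g) w₀) := by
            rw [← Equiv.Perm.mul_apply (ν b₁), ← map_mul, ← Equiv.Perm.mul_apply, ← map_mul,
              ← Equiv.Perm.mul_apply, ← map_mul]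
            congr 2
            group
          rw [e1]
          exact h)
      have e : (p w)⁻¹ * b * (c * g) = ((p w)⁻¹ * (b * c * b₁⁻¹) * p (ν b₁ (ν g w₀))) *
          ((p (ν b₁ (ν g w₀)))⁻¹ * b₁ * g) := by group
      rw [e]; exact mul_mem h3 h2
  have hfin : stb ν w₀ = D := by
    apply le_antisymm
    · intro g hg
      have h1 := hkey g 1 (one_mem _) w₀ hw₀' (by
        rw [map_one, Equiv.Perm.one_apply]; exact hg)
      have e : g = p w₀ * ((p w₀)⁻¹ * 1 * g) := by group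
      rw [e]; exact mul_mem hp0 h1
    · rw [hD, Subgroup.closure_le]
      rintro g ((hg | hg) | hg)
      · obtain ⟨i, hg⟩ := Set.mem_iUnion.mp hg
        obtain ⟨w, hw, s, hs, rfl⟩ := Set.mem_iUnion₂.mp hg
        have h1 : s ∈ A i ⊓ stb ν w := by rw [← hT i w hw]; exact Subgroup.subset_closure hs
        change ν ((p w)⁻¹ * s * p w) w₀ = w₀
        rw [map_mul, map_mul, Equiv.Perm.mul_apply, Equiv.Perm.mul_apply, hp w hw,
          mem_stb.mp h1.2, hp' w hw]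
      · obtain ⟨i, hg⟩ := Set.mem_iUnion.mp hg
        obtain ⟨w, hw, hg⟩ := Set.mem_iUnion₂.mp hg
        obtain ⟨w', hw', rfl⟩ := Set.mem_iUnion₂.mp hg
        change ν ((p w')⁻¹ * a i w w' * p w) w₀ = w₀
        rw [map_mul, map_mul, Equiv.Perm.mul_apply, Equiv.Perm.mul_apply, hp w hw,
          ha i w w' hw hw', hp' w' hw']
      · rw [Set.mem_singleton_iff.mp hg]
        exact hp w₀ hw₀'
  rw [hfin, Subgroup.fg_iff]
  exact ⟨S, rfl, hSf⟩

/-- characters restricted to finite-index subgroups -/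
theorem restrict_fibred {A B : Type*} [Group A] [Group B] (f : A →* B) (hf : Injective f)
    (hfi : f.range.FiniteIndex) (χ : B →* Multiplicative ℤ) (hχ : χ ≠ 1) (hfg : χ.ker.FG) :
    χ.comp f ≠ 1 ∧ (χ.comp f).ker.FG := by
  constructor
  · intro h
    apply hχ
    ext b
    obtain ⟨n, hn, _, a, ha⟩ := Subgroup.exists_pow_mem_of_index_ne_zero
      (Subgroup.finiteIndex_iff.mp hfi) b
    have h1 : χ (f a) = 1 := DFunLike.congr_fun h a
    rw [ha, map_pow] at h1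
    have h2 := congrArg Multiplicative.toAdd h1
    rw [toAdd_pow, toAdd_one, nsmul_eq_mul] at h2
    rcases mul_eq_zero.mp h2 with h3 | h3
    · exact absurd (by exact_mod_cast h3) hn.ne'
    · rw [h3]; rfl
  · have h1 : Group.FG χ.ker := (Group.fg_iff_subgroup_fg _).mpr hfg
    have h2 : (f.range.subgroupOf χ.ker).FiniteIndex := inferInstance
    have h3 : Group.FG (f.range.subgroupOf χ.ker) := Subgroup.fg_of_index_ne_zero _
    have h5 : ((f.range.subgroupOf χ.ker).map χ.ker.subtype).FG := by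
      rw [← Group.fg_iff_subgroup_fg]
      exact Group.fg_of_surjective
        (f := ((f.range.subgroupOf χ.ker).equivMapOfInjective χ.ker.subtype
          (Subgroup.subtype_injective _)).toMonoidHom)
        ((f.range.subgroupOf χ.ker).equivMapOfInjective χ.ker.subtype
          (Subgroup.subtype_injective _)).surjective
    have h6 : (f.range.subgroupOf χ.ker).map χ.ker.subtype = (χ.comp f).ker.map f := by
      ext b
      constructor
      · rintro ⟨⟨b, hb⟩, ⟨a, rfl⟩, rfl⟩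
        exact ⟨a, hb, rfl⟩
      · rintro ⟨a, ha, rfl⟩
        exact ⟨⟨f a, ha⟩, ⟨a, rfl⟩, rfl⟩
    rw [h6] at h5
    have h7 : Group.FG ((χ.comp f).ker.map f) := (Group.fg_iff_subgroup_fg _).mpr h5
    have h8 : Group.FG (χ.comp f).ker :=
      Group.fg_of_surjective (f := ((χ.comp f).ker.equivMapOfInjective f hf).symm.toMonoidHom)
        ((χ.comp f).ker.equivMapOfInjective f hf).symm.surjective
    exact (Group.fg_iff_subgroup_fg _).mp h8

/-- simultaneous perturbation -/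
theorem exists_theta {K : Type*} [Group K] (χ : K →* Multiplicative ℤ) (hχ : χ ≠ 1)
    (hfg : χ.ker.FG) {ι : Type*} [Finite ι] (x : ι → K) (ψ : ι → K →* Multiplicative ℤ)
    (h : ∀ i, ψ i (x i) ≠ 1) :
    ∃ θ : K →* Multiplicative ℤ, θ ≠ 1 ∧ θ.ker.FG ∧ ∀ i, θ (x i) ≠ 1 := by
  classical
  have key : ∀ s : Finset ι, ∃ θ : K →* Multiplicative ℤ, θ ≠ 1 ∧ θ.ker.FG ∧
      ∀ i ∈ s, θ (x i) ≠ 1 := by
    intro s
    induction s using Finset.induction_on with
    | empty => exact ⟨χ, hχ, hfg, fun i hi => absurd hi (Finset.notMem_empty i)⟩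
    | insert a s _ ih =>
      obtain ⟨θ, h1, h2, h3⟩ := ih
      obtain ⟨θ', h1', h2', h3'⟩ := exists_perturb θ (ψ a) h1 h2 ((insert a s).image x)
      refine ⟨θ', h1', h2', fun i hi => ?_⟩
      refine h3' (x i) (Finset.mem_image_of_mem x hi) ?_
      rcases Finset.mem_insert.mp hi with rfl | hi
      · exact Or.inr (h i)
      · exact Or.inl (h3 i hi)
  have := Fintype.ofFinite ι
  obtain ⟨θ, h1, h2, h3⟩ := key Finset.univ
  exact ⟨θ, h1, h2, fun i => h3 i (Finset.mem_univ i)⟩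

end Pool.Agent.V1122.Amalg
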