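import Mathlib

/-!
# Permutational products with coefficients

Given `φ : G₀ → G`, a normal subgroup `K` of `G` and `L = φ⁻¹(K)`, we choose coordinates
`G / K ≅ (G₀ / L) × J` compatible with left multiplication by `G₀`, and the corresponding
cocycle with values in `K`.
-/

namespace Pool.Agent.V1122.Amalg

open Function

section side

variable {G₀ G : Type*} [Group G₀] [Group G] (φ : G₀ →* G) (K : Subgroup G) [hK : K.Normal]
  (L : Subgroup G₀)

/-- double coset space `φ(G₀) \ G / K` as right cosets of `φ(G₀) K` -/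
abbrev J : Type _ := Quotient (QuotientGroup.rightRel (φ.range ⊔ K))

/-- representatives -/
noncomputable def rr (j : J φ K) : G := Quotient.out j

/-- section of the coordinates -/
noncomputable def sig (p : (G₀ ⧸ L) × J φ K) : G := φ (Quotient.out p.1) * rr φ K p.2

omit hK in
lemma rr_mk (g : G) : g * (rr φ K (Quotient.mk _ g))⁻¹ ∈ φ.range ⊔ K := by
  have h : (QuotientGroup.rightRel (φ.range ⊔ K)).r (rr φ K (Quotient.mk _ g)) g :=
    Quotient.exact (Quotient.out_eq (Quotient.mk (QuotientGroup.rightRel (φ.range ⊔ K)) g))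
  exact QuotientGroup.rightRel_apply.mp h

omit hK in
lemma J_ext {j j' : J φ K} (h : rr φ K j' * (rr φ K j)⁻¹ ∈ φ.range ⊔ K) : j = j' := by
  have h1 : (QuotientGroup.rightRel (φ.range ⊔ K)).r (rr φ K j) (rr φ K j') :=
    QuotientGroup.rightRel_apply.mpr h
  have h2 := Quotient.sound h1
  rwa [rr, rr, Quotient.out_eq, Quotient.out_eq] at h2

lemma out_mem {G₀ : Type*} [Group G₀] (L : Subgroup G₀) (g₀ : G₀) :
    (Quotient.out (QuotientGroup.mk g₀ : G₀ ⧸ L))⁻¹ * g₀ ∈ L := by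
  have h : (QuotientGroup.mk (Quotient.out (QuotientGroup.mk g₀ : G₀ ⧸ L)) : G₀ ⧸ L) =
      QuotientGroup.mk g₀ := Quotient.out_eq _
  exact QuotientGroup.eq.mp h

variable (hL : ∀ x : G₀, x ∈ L ↔ φ x ∈ K)

include hL

lemma exists_coord (g : G) : ∃ p : (G₀ ⧸ L) × J φ K, (sig φ K L p)⁻¹ * g ∈ K := by
  have h := rr_mk φ K g
  set j : J φ K := Quotient.mk _ g
  rw [← SetLike.mem_coe, Subgroup.mul_normal] at h
  obtain ⟨_, ⟨g₀, rfl⟩, k, hk, he⟩ := h
  have hg : g = φ g₀ * k * rr φ K j := by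
    rw [← mul_inv_eq_iff_eq_mul]; exact he.symm
  refine ⟨(QuotientGroup.mk g₀, j), ?_⟩
  have h1 : φ ((Quotient.out (QuotientGroup.mk g₀ : G₀ ⧸ L))⁻¹ * g₀) ∈ K :=
    (hL _).mp (out_mem L g₀)
  have h2 : (sig φ K L (QuotientGroup.mk g₀, j))⁻¹ * g =
      (rr φ K j)⁻¹ * (φ ((Quotient.out (QuotientGroup.mk g₀ : G₀ ⧸ L))⁻¹ * g₀) * k) *
        (rr φ K j)⁻¹⁻¹ := by
    rw [sig, hg, map_mul, map_inv]; group
  rw [h2]
  exact hK.conj_mem _ (mul_mem h1 hk) _

lemma coord_unique {g : G} {p q : (G₀ ⧸ L) × J φ K} (hp : (sig φ K L p)⁻¹ * g ∈ K)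
    (hq : (sig φ K L q)⁻¹ * g ∈ K) : p = q := by
  obtain ⟨c, j⟩ := p
  obtain ⟨c', j'⟩ := q
  have h : (sig φ K L (c, j))⁻¹ * sig φ K L (c', j') ∈ K := by
    have := mul_mem hp (inv_mem hq)
    have e : (sig φ K L (c, j))⁻¹ * g * ((sig φ K L (c', j'))⁻¹ * g)⁻¹ =
      (sig φ K L (c, j))⁻¹ * sig φ K L (c', j') := by group
    rwa [e] at this
  simp only [sig] at h
  have hj : j = j' := by
    apply J_ext
    have h1 : (rr φ K j) * ((φ (Quotient.out c) * rr φ K j)⁻¹ *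
        (φ (Quotient.out c') * rr φ K j')) * (rr φ K j)⁻¹ ∈ K := hK.conj_mem _ h _
    have h2 : rr φ K j' * (rr φ K j)⁻¹ = φ ((Quotient.out c')⁻¹ * Quotient.out c) *
      ((rr φ K j) * ((φ (Quotient.out c) * rr φ K j)⁻¹ *
        (φ (Quotient.out c') * rr φ K j')) * (rr φ K j)⁻¹) := by
      rw [map_mul, map_inv]; group
    rw [h2]
    exact mul_mem (Subgroup.mem_sup_left ⟨_, rfl⟩) (Subgroup.mem_sup_right h1)
  subst hj
  have hc : c = c' := by
    have h1 : (rr φ K j) * ((φ (Quotient.out c) * rr φ K j)⁻¹ *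
        (φ (Quotient.out c') * rr φ K j)) * (rr φ K j)⁻¹ ∈ K := hK.conj_mem _ h _
    have h2 : (rr φ K j) * ((φ (Quotient.out c) * rr φ K j)⁻¹ *
        (φ (Quotient.out c') * rr φ K j)) * (rr φ K j)⁻¹ =
        φ ((Quotient.out c)⁻¹ * Quotient.out c') := by
      rw [map_mul, map_inv]; group
    rw [h2, ← hL] at h1
    have h3 := QuotientGroup.eq.mpr h1
    have e1 : (QuotientGroup.mk (Quotient.out c) : G₀ ⧸ L) = c := Quotient.out_eq _
    have e2 : (QuotientGroup.mk (Quotient.out c') : G₀ ⧸ L) = c' := Quotient.out_eq _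
    rw [← e1, ← e2]; exact h3
  rw [hc]

/-- coordinates -/
noncomputable def crd (g : G) : (G₀ ⧸ L) × J φ K := (exists_coord φ K L hL g).choose

lemma crd_spec (g : G) : (sig φ K L (crd φ K L hL g))⁻¹ * g ∈ K :=
  (exists_coord φ K L hL g).choose_spec

lemma crd_eq {g : G} {p : (G₀ ⧸ L) × J φ K} (hp : (sig φ K L p)⁻¹ * g ∈ K) :
    crd φ K L hL g = p :=
  coord_unique φ K L hL (crd_spec φ K L hL g) hp

lemma crd_sig (p : (G₀ ⧸ L) × J φ K) : crd φ K L hL (sig φ K L p) = p :=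
  crd_eq φ K L hL (by rw [inv_mul_cancel]; exact one_mem K)

lemma crd_mul_sig (g h : G) :
    crd φ K L hL (g * sig φ K L (crd φ K L hL h)) = crd φ K L hL (g * h) := by
  symm
  apply crd_eq
  have h1 := crd_spec φ K L hL (g * sig φ K L (crd φ K L hL h))
  have h2 := crd_spec φ K L hL h
  have h3 := mul_mem h1 h2
  have e : (sig φ K L (crd φ K L hL (g * sig φ K L (crd φ K L hL h))))⁻¹ *
      (g * sig φ K L (crd φ K L hL h)) * ((sig φ K L (crd φ K L hL h))⁻¹ * h) =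
      (sig φ K L (crd φ K L hL (g * sig φ K L (crd φ K L hL h))))⁻¹ * (g * h) := by group
  rwa [e] at h3

/-- the action of `G` on coordinates -/
noncomputable def act (g : G) (p : (G₀ ⧸ L) × J φ K) : (G₀ ⧸ L) × J φ K :=
  crd φ K L hL (g * sig φ K L p)

lemma act_one (p : (G₀ ⧸ L) × J φ K) : act φ K L hL 1 p = p := by
  rw [act, one_mul, crd_sig]

lemma act_mul (g h : G) (p : (G₀ ⧸ L) × J φ K) :
    act φ K L hL (g * h) p = act φ K L hL g (act φ K L hL h p) := by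
  rw [act, act, act, crd_mul_sig, mul_assoc]

/-- the cocycle with values in `K` -/
noncomputable def coc (g : G) (p : (G₀ ⧸ L) × J φ K) : K :=
  ⟨(sig φ K L (act φ K L hL g p))⁻¹ * (g * sig φ K L p), crd_spec φ K L hL _⟩

lemma coc_one (p : (G₀ ⧸ L) × J φ K) : coc φ K L hL 1 p = 1 := by
  apply Subtype.ext
  simp only [coc, act_one, one_mul, inv_mul_cancel, Subgroup.coe_one]

lemma coc_mul (g h : G) (p : (G₀ ⧸ L) × J φ K) :
    coc φ K L hL (g * h) p = coc φ K L hL g (act φ K L hL h p) * coc φ K L hL h p := by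
  apply Subtype.ext
  simp only [coc, act_mul, Subgroup.coe_mul]
  group

/-- the element `r_j⁻¹ φ(x) r_j` of `K`, for `x ∈ L` -/
noncomputable def conj (j : J φ K) (x : L) : K :=
  ⟨(rr φ K j)⁻¹ * φ x * rr φ K j, by
    have := hK.conj_mem _ ((hL x).mp x.2) (rr φ K j)⁻¹
    simpa using this⟩

/-- the element `s(g₀ c)⁻¹ g₀ s(c)` of `L` -/
noncomputable def lamL {G₀ : Type*} [Group G₀] (L : Subgroup G₀) (g₀ : G₀) (c : G₀ ⧸ L) : L :=
  ⟨(Quotient.out (QuotientGroup.mk (g₀ * Quotient.out c) : G₀ ⧸ L))⁻¹ * (g₀ * Quotient.out c),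
    out_mem L _⟩

omit hL in
lemma sig_lam (hL : ∀ x : G₀, x ∈ L ↔ φ x ∈ K) (g₀ : G₀) (c : G₀ ⧸ L) (j : J φ K) :
    (sig φ K L (QuotientGroup.mk (g₀ * Quotient.out c), j))⁻¹ * (φ g₀ * sig φ K L (c, j)) =
      conj φ K L hL j (lamL L g₀ c) := by
  change (φ (Quotient.out (QuotientGroup.mk (g₀ * Quotient.out c) : G₀ ⧸ L)) * rr φ K j)⁻¹ *
    (φ g₀ * (φ (Quotient.out c) * rr φ K j)) = (rr φ K j)⁻¹ *
    φ ((Quotient.out (QuotientGroup.mk (g₀ * Quotient.out c) : G₀ ⧸ L))⁻¹ *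
      (g₀ * Quotient.out c)) * rr φ K j
  rw [map_mul, map_mul, map_inv]
  group

lemma act_base (g₀ : G₀) (c : G₀ ⧸ L) (j : J φ K) :
    act φ K L hL (φ g₀) (c, j) = (QuotientGroup.mk (g₀ * Quotient.out c), j) := by
  apply crd_eq
  rw [sig_lam φ K L hL]
  exact SetLike.coe_mem _

lemma coc_base (g₀ : G₀) (c : G₀ ⧸ L) (j : J φ K) :
    coc φ K L hL (φ g₀) (c, j) = conj φ K L hL j (lamL L g₀ c) := by
  apply Subtype.ext
  simp only [coc, act_base]
  exact sig_lam φ K L hL g₀ c j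

/-- elements of `K` act trivially on coordinates -/
lemma act_of_mem {g : G} (hg : g ∈ K) (p : (G₀ ⧸ L) × J φ K) : act φ K L hL g p = p := by
  apply crd_eq
  have := hK.conj_mem _ hg (sig φ K L p)⁻¹
  simpa [mul_assoc] using this

lemma mem_of_act {g : G} {p : (G₀ ⧸ L) × J φ K} (h : act φ K L hL g p = p) : g ∈ K := by
  have h1 := crd_spec φ K L hL (g * sig φ K L p)
  have h2 : crd φ K L hL (g * sig φ K L p) = p := h
  rw [h2] at h1
  have h3 := hK.conj_mem _ h1 (sig φ K L p)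
  have e : sig φ K L p * ((sig φ K L p)⁻¹ * (g * sig φ K L p)) * (sig φ K L p)⁻¹ = g := by group
  rwa [e] at h3

lemma coc_of_mem {g : G} (hg : g ∈ K) (p : (G₀ ⧸ L) × J φ K) :
    (coc φ K L hL g p : G) = (sig φ K L p)⁻¹ * g * sig φ K L p := by
  simp only [coc, act_of_mem φ K L hL hg, mul_assoc]

end side

end Pool.Agent.V1122.Amalg
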