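import Mathlib
import Pool.Agent.V1122.Amalg.Side

/-!
# The action of an amalgam on a permutational product with coefficients
-/

namespace Pool.Agent.V1122.Amalg

open Function

/-- a permutation representation from an action given by functions -/
def mkPerm {G X : Type*} [Group G] (f : G → X → X) (h1 : ∀ x, f 1 x = x)
    (hm : ∀ g h x, f (g * h) x = f g (f h x)) : G →* Equiv.Perm X :=
  @MulAction.toPermHom G X _
    { smul := f
      one_smul := h1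
      mul_smul := hm }

@[simp] lemma mkPerm_apply {G X : Type*} [Group G] (f : G → X → X) (h1 : ∀ x, f 1 x = x)
    (hm : ∀ g h x, f (g * h) x = f g (f h x)) (g : G) (x : X) : mkPerm f h1 hm g x = f g x := rfl

section machine

variable {G₀ G₁ G₂ : Type*} [Group G₀] [Group G₁] [Group G₂] (φ₁ : G₀ →* G₁) (φ₂ : G₀ →* G₂)
  (K₁ : Subgroup G₁) (K₂ : Subgroup G₂) [hK₁ : K₁.Normal] [hK₂ : K₂.Normal] (L : Subgroup G₀)
  (hL₁ : ∀ x : G₀, x ∈ L ↔ φ₁ x ∈ K₁) (hL₂ : ∀ x : G₀, x ∈ L ↔ φ₂ x ∈ K₂)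
  {V : Type*} [Group V] (α : J φ₂ K₂ → (K₁ →* V)) (β : J φ₁ K₁ → (K₂ →* V))

/-- the finite set acted on -/
abbrev Om : Type _ := (G₀ ⧸ L) × J φ₁ K₁ × J φ₂ K₂

/-- action of `G₁` on the finite set -/
noncomputable def o1 (g : G₁) (p : Om φ₁ φ₂ K₁ K₂ L) : Om φ₁ φ₂ K₁ K₂ L :=
  ((act φ₁ K₁ L hL₁ g (p.1, p.2.1)).1, (act φ₁ K₁ L hL₁ g (p.1, p.2.1)).2, p.2.2)

/-- action of `G₂` on the finite set -/
noncomputable def o2 (g : G₂) (p : Om φ₁ φ₂ K₁ K₂ L) : Om φ₁ φ₂ K₁ K₂ L :=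
  ((act φ₂ K₂ L hL₂ g (p.1, p.2.2)).1, p.2.1, (act φ₂ K₂ L hL₂ g (p.1, p.2.2)).2)

/-- action of `G₁` -/
noncomputable def f1 (g : G₁) (x : Om φ₁ φ₂ K₁ K₂ L × V) : Om φ₁ φ₂ K₁ K₂ L × V :=
  (o1 φ₁ φ₂ K₁ K₂ L hL₁ g x.1, α x.1.2.2 (coc φ₁ K₁ L hL₁ g (x.1.1, x.1.2.1)) * x.2)

/-- action of `G₂` -/
noncomputable def f2 (g : G₂) (x : Om φ₁ φ₂ K₁ K₂ L × V) : Om φ₁ φ₂ K₁ K₂ L × V :=
  (o2 φ₁ φ₂ K₁ K₂ L hL₂ g x.1, β x.1.2.1 (coc φ₂ K₂ L hL₂ g (x.1.1, x.1.2.2)) * x.2)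

/-- the homomorphism on `G₁` -/
noncomputable def n1 : G₁ →* Equiv.Perm (Om φ₁ φ₂ K₁ K₂ L × V) :=
  mkPerm (f1 φ₁ φ₂ K₁ K₂ L hL₁ α)
    (by
      rintro ⟨⟨c, j, k⟩, v⟩
      simp only [f1, o1, act_one, coc_one, map_one, one_mul])
    (by
      rintro g h ⟨⟨c, j, k⟩, v⟩
      simp only [f1, o1, act_mul, coc_mul, map_mul, mul_assoc])

/-- the homomorphism on `G₂` -/
noncomputable def n2 : G₂ →* Equiv.Perm (Om φ₁ φ₂ K₁ K₂ L × V) :=
  mkPerm (f2 φ₁ φ₂ K₁ K₂ L hL₂ β)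
    (by
      rintro ⟨⟨c, j, k⟩, v⟩
      simp only [f2, o2, act_one, coc_one, map_one, one_mul])
    (by
      rintro g h ⟨⟨c, j, k⟩, v⟩
      simp only [f2, o2, act_mul, coc_mul, map_mul, mul_assoc])

variable (hc : ∀ (j : J φ₁ K₁) (k : J φ₂ K₂) (x : L),
  α k (conj φ₁ K₁ L hL₁ j x) = β j (conj φ₂ K₂ L hL₂ k x))

include hc in
lemma n_base (g : G₀) : n1 φ₁ φ₂ K₁ K₂ L hL₁ α (φ₁ g) = n2 φ₁ φ₂ K₁ K₂ L hL₂ β (φ₂ g) := by
  ext1 ⟨⟨c, j, k⟩, v⟩
  simp only [n1, n2, mkPerm_apply, f1, f2, o1, o2, act_base, coc_base, hc]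

end machine

section amalgam

variable {G₀ : Type*} {G : Bool → Type*} [Group G₀] [∀ i, Group (G i)] (φ : ∀ i, G₀ →* G i)
  (K : ∀ i, Subgroup (G i)) [hK : ∀ i, (K i).Normal] (L : Subgroup G₀)
  (hL : ∀ i, ∀ x : G₀, x ∈ L ↔ φ i x ∈ K i)
  {V : Type*} [Group V] (α : J (φ true) (K true) → (K false →* V))
  (β : J (φ false) (K false) → (K true →* V))
  (hc : ∀ (j : J (φ false) (K false)) (k : J (φ true) (K true)) (x : L),
    α k (conj (φ false) (K false) L (hL false) j x) =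
      β j (conj (φ true) (K true) L (hL true) k x))

/-- the action of the amalgam -/
noncomputable def nu : Monoid.PushoutI φ →*
    Equiv.Perm (Om (φ false) (φ true) (K false) (K true) L × V) :=
  Monoid.PushoutI.lift
    (fun i => match i with
      | false => n1 (φ false) (φ true) (K false) (K true) L (hL false) α
      | true => n2 (φ false) (φ true) (K false) (K true) L (hL true) β)
    ((n1 (φ false) (φ true) (K false) (K true) L (hL false) α).comp (φ false))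
    (by
      intro i
      match i with
      | false => rfl
      | true =>
        ext1 g
        exact (n_base (φ false) (φ true) (K false) (K true) L (hL false) (hL true) α β hc g).symm)

lemma nu_false (g : G false) : nu φ K L hL α β hc (Monoid.PushoutI.of false g) =
    n1 (φ false) (φ true) (K false) (K true) L (hL false) α g := by
  rw [nu, Monoid.PushoutI.lift_of]

lemma nu_true (g : G true) : nu φ K L hL α β hc (Monoid.PushoutI.of true g) =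
    n2 (φ false) (φ true) (K false) (K true) L (hL true) β g := by
  rw [nu, Monoid.PushoutI.lift_of]

end amalgam

end Pool.Agent.V1122.Amalg
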