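import Mathlib
import Pool.Agent.V1122.Amalg.Machine

/-!
# The image of an amalgam in a virtually abelian group
-/

namespace Pool.Agent.V1122.Amalg

open Function

/-- `G` has an abelian subgroup of finite index. -/
def VirtAbelian (G : Type*) [Group G] : Prop :=
  ∃ A : Subgroup G, A.FiniteIndex ∧ ∀ x ∈ A, ∀ y ∈ A, x * y = y * x

/-- `G` has a cyclic subgroup of finite index. -/
def VirtCyclic (G : Type*) [Group G] : Prop :=
  ∃ A : Subgroup G, A.FiniteIndex ∧ IsCyclic A

section

variable {G₀ : Type*} {G : Bool → Type*} [Group G₀] [∀ i, Group (G i)] (φ : ∀ i, G₀ →* G i)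
  (K : ∀ i, Subgroup (G i)) [hK : ∀ i, (K i).Normal] (L : Subgroup G₀)
  (hL : ∀ i, ∀ x : G₀, x ∈ L ↔ φ i x ∈ K i)
  {V : Type*} [CommGroup V] (α : J (φ true) (K true) → (K false →* V))
  (β : J (φ false) (K false) → (K true →* V))
  (hc : ∀ (j : J (φ false) (K false)) (k : J (φ true) (K true)) (x : L),
    α k (conj (φ false) (K false) L (hL false) j x) =
      β j (conj (φ true) (K true) L (hL true) k x))

/-- the action on the finite set, in the form of the case `V = 1` -/
noncomputable def nuO : Monoid.PushoutI φ →*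
    Equiv.Perm (Om (φ false) (φ true) (K false) (K true) L × PUnit.{1}) :=
  nu φ K L hL (fun _ => 1) (fun _ => 1) (fun _ _ _ => rfl)

lemma nu_fst (g : Monoid.PushoutI φ) :
    ∀ (x : Om (φ false) (φ true) (K false) (K true) L × V),
    (nu φ K L hL α β hc g x).1 = (nuO φ K L hL g (x.1, PUnit.unit)).1 := by
  induction g using Monoid.PushoutI.induction_on with
  | of i g =>
    intro x
    match i with
    | false => rw [nu_false, nuO, nu_false]; rfl
    | true => rw [nu_true, nuO, nu_true]; rfl
  | base g =>
    intro x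
    rw [← Monoid.PushoutI.of_apply_eq_base φ false, nu_false, nuO, nu_false]; rfl
  | mul a b ha hb =>
    intro x
    rw [map_mul, map_mul, Equiv.Perm.mul_apply, Equiv.Perm.mul_apply, ha, hb]

lemma nu_mul_right (g : Monoid.PushoutI φ) :
    ∀ (o : Om (φ false) (φ true) (K false) (K true) L) (v w : V),
    nu φ K L hL α β hc g (o, v * w) =
      ((nu φ K L hL α β hc g (o, v)).1, (nu φ K L hL α β hc g (o, v)).2 * w) := by
  induction g using Monoid.PushoutI.induction_on with
  | of i g =>
    intro o v w
    match i with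
    | false =>
      rw [nu_false]
      simp only [n1, mkPerm_apply, f1, mul_assoc]
    | true =>
      rw [nu_true]
      simp only [n2, mkPerm_apply, f2, mul_assoc]
  | base g =>
    intro o v w
    rw [← Monoid.PushoutI.of_apply_eq_base φ false, nu_false]
    simp only [n1, mkPerm_apply, f1, mul_assoc]
  | mul a b ha hb =>
    intro o v w
    rw [map_mul, Equiv.Perm.mul_apply, hb, ha, Equiv.Perm.mul_apply]

/-- elements acting trivially on the finite set -/
noncomputable def Ker : Subgroup (Monoid.PushoutI φ) := (nuO φ K L hL).ker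

lemma ker_apply {g : Monoid.PushoutI φ} (hg : g ∈ Ker φ K L hL)
    (o : Om (φ false) (φ true) (K false) (K true) L) (v : V) :
    nu φ K L hL α β hc g (o, v) = (o, (nu φ K L hL α β hc g (o, 1)).2 * v) := by
  have h0 : nuO φ K L hL g = 1 := hg
  have h1 : ∀ w : V, (nu φ K L hL α β hc g (o, w)).1 = o := by
    intro w
    rw [nu_fst, h0]; rfl
  have h2 := nu_mul_right φ K L hL α β hc g o 1 v
  rw [one_mul] at h2
  rw [h2, h1]

lemma ker_comm {g h : Monoid.PushoutI φ} (hg : g ∈ Ker φ K L hL) (hh : h ∈ Ker φ K L hL) :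
    nu φ K L hL α β hc g * nu φ K L hL α β hc h =
      nu φ K L hL α β hc h * nu φ K L hL α β hc g := by
  ext1 ⟨o, v⟩
  rw [Equiv.Perm.mul_apply, Equiv.Perm.mul_apply, ker_apply φ K L hL α β hc hh,
    ker_apply φ K L hL α β hc hg, ker_apply φ K L hL α β hc hg o v,
    ker_apply φ K L hL α β hc hh o (_ * v)]
  rw [mul_left_comm]

lemma nu_false_ker {g : G false} (c : G₀ ⧸ L) (j : J (φ false) (K false))
    (k : J (φ true) (K true))
    (h : Monoid.PushoutI.of false g ∈ Ker φ K L hL) : g ∈ K false := by
  have h0 : nuO φ K L hL (Monoid.PushoutI.of false g) = 1 := h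
  rw [nuO, nu_false] at h0
  have h1 := congrArg (fun p => (p ((c, j, k), PUnit.unit)).1) h0
  simp only [n1, mkPerm_apply, f1, o1, Equiv.Perm.coe_one, id_eq] at h1
  have h2 : act (φ false) (K false) L (hL false) g (c, j) = (c, j) := by
    have e1 := congrArg Prod.fst h1
    have e2 := congrArg (fun q => q.2.1) h1
    exact Prod.ext e1 e2
  exact mem_of_act (φ false) (K false) L (hL false) h2

lemma nu_true_ker {g : G true} (c : G₀ ⧸ L) (j : J (φ false) (K false))
    (k : J (φ true) (K true))
    (h : Monoid.PushoutI.of true g ∈ Ker φ K L hL) : g ∈ K true := by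
  have h0 : nuO φ K L hL (Monoid.PushoutI.of true g) = 1 := h
  rw [nuO, nu_true] at h0
  have h1 := congrArg (fun p => (p ((c, j, k), PUnit.unit)).1) h0
  simp only [n2, mkPerm_apply, f2, o2, Equiv.Perm.coe_one, id_eq] at h1
  have h2 : act (φ true) (K true) L (hL true) g (c, k) = (c, k) := by
    have e1 := congrArg Prod.fst h1
    have e2 := congrArg (fun q => q.2.2) h1
    exact Prod.ext e1 e2
  exact mem_of_act (φ true) (K true) L (hL true) h2

/-- membership in `Ker` can be read off `nu` -/
lemma mem_Ker_of {g h : Monoid.PushoutI φ}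
    (e : nu φ K L hL α β hc g = nu φ K L hL α β hc h) (hh : h ∈ Ker φ K L hL) :
    g ∈ Ker φ K L hL := by
  have h0 : nuO φ K L hL h = 1 := hh
  change nuO φ K L hL g = 1
  ext1 ⟨o, u⟩
  have h1 := nu_fst φ K L hL α β hc g (o, 1)
  have h2 := nu_fst φ K L hL α β hc h (o, 1)
  rw [e, h2, h0] at h1
  refine Prod.ext ?_ rfl
  exact h1.symm

lemma pushout_fg [h1 : Group.FG (G false)] [h2 : Group.FG (G true)] :
    Group.FG (Monoid.PushoutI φ) := by
  rw [Group.fg_iff] at h1 h2 ⊢
  obtain ⟨S, hS, hSf⟩ := h1
  obtain ⟨T, hT, hTf⟩ := h2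
  refine ⟨(Monoid.PushoutI.of false '' S) ∪ (Monoid.PushoutI.of true '' T), ?_,
    (hSf.image _).union (hTf.image _)⟩
  rw [eq_top_iff]
  intro g _
  have hf : ∀ x : G false, (Monoid.PushoutI.of false x : Monoid.PushoutI φ) ∈
      Subgroup.closure ((Monoid.PushoutI.of false '' S) ∪ (Monoid.PushoutI.of true '' T)) := by
    intro x
    have hx : x ∈ Subgroup.closure S := by rw [hS]; trivial
    have := Subgroup.mem_map_of_mem (Monoid.PushoutI.of (φ := φ) false) hx
    rw [MonoidHom.map_closure] at this
    exact Subgroup.closure_mono Set.subset_union_left this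
  induction g using Monoid.PushoutI.induction_on with
  | of i x =>
    match i with
    | false => exact hf x
    | true =>
      have hx : x ∈ Subgroup.closure T := by rw [hT]; trivial
      have := Subgroup.mem_map_of_mem (Monoid.PushoutI.of (φ := φ) true) hx
      rw [MonoidHom.map_closure] at this
      exact Subgroup.closure_mono Set.subset_union_right this
  | base x =>
    rw [← Monoid.PushoutI.of_apply_eq_base φ false]
    exact hf _
  | mul a b ha hb => exact mul_mem (ha trivial) (hb trivial)

end

section concl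

universe u

variable {G₀ : Type u} {G : Bool → Type u} [Group G₀] [∀ i, Group (G i)] (φ : ∀ i, G₀ →* G i)
  (K : ∀ i, Subgroup (G i)) [hK : ∀ i, (K i).Normal] (L : Subgroup G₀)
  (hL : ∀ i, ∀ x : G₀, x ∈ L ↔ φ i x ∈ K i)
  {V : Type} [CommGroup V] (α : J (φ true) (K true) → (K false →* V))
  (β : J (φ false) (K false) → (K true →* V))
  (hc : ∀ (j : J (φ false) (K false)) (k : J (φ true) (K true)) (x : L),
    α k (conj (φ false) (K false) L (hL false) j x) =
      β j (conj (φ true) (K true) L (hL true) k x))

instance finite_J {G₀ G : Type*} [Group G₀] [Group G] (φ : G₀ →* G) (K : Subgroup G)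
    [K.FiniteIndex] : Finite (J φ K) := by
  have : (φ.range ⊔ K).FiniteIndex := Subgroup.finiteIndex_of_le le_sup_right
  exact Finite.of_equiv _ (QuotientGroup.quotientRightRelEquivQuotientLeftRel
    (φ.range ⊔ K)).symm

include hc in
theorem concl [h1 : Group.FG (G false)] [h2 : Group.FG (G true)] [Finite (G₀ ⧸ L)]
    [∀ i, (K i).FiniteIndex]
    (hα : ∀ k, Injective (α k)) (hβ : ∀ j, Injective (β j))
    (j₀ : J (φ false) (K false)) (k₀ : J (φ true) (K true)) (τ : V →* Multiplicative ℤ)
    (hτ : ∀ x y, α k₀ x = β j₀ y → τ (α k₀ x) = 1 → x = 1) :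
    ∃ (E : Type u) (_ : Group E) (_ : Group.FG E) (_ : VirtAbelian E)
      (ν : Monoid.PushoutI φ →* E),
      Injective (ν.comp (Monoid.PushoutI.of false)) ∧
      Injective (ν.comp (Monoid.PushoutI.of true)) ∧
      VirtCyclic ↥((ν.comp (Monoid.PushoutI.of false)).range ⊓
        (ν.comp (Monoid.PushoutI.of true)).range) := by
  have c₀ : G₀ ⧸ L := QuotientGroup.mk 1
  set n := nu φ K L hL α β hc with hn
  have hfg : Group.FG (Monoid.PushoutI φ) := pushout_fg φ
  let ν : Monoid.PushoutI φ →* n.range := n.rangeRestrict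
  have hsurj : Surjective ν := n.rangeRestrict_surjective
  have hνe : ∀ {g h}, ν g = ν h → n g = n h := fun {g h} e => congrArg Subtype.val e
  have hkerfi : (Ker φ K L hL).FiniteIndex := by
    have : Finite (Equiv.Perm (Om (φ false) (φ true) (K false) (K true) L × PUnit.{1})) :=
      inferInstance
    unfold Ker
    infer_instance
  have hinj1 : ∀ g : G false, n (Monoid.PushoutI.of false g) = 1 → g = 1 := by
    intro g hg
    have h3 : Monoid.PushoutI.of false g ∈ Ker φ K L hL := by
      refine mem_Ker_of φ K L hL α β hc (h := 1) ?_ (one_mem _)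
      rw [map_one]; exact hg
    have h4 := nu_false_ker φ K L hL c₀ j₀ k₀ h3
    rw [hn, nu_false] at hg
    have h5 := congrArg (fun p => (p ((c₀, j₀, k₀), (1 : V))).2) hg
    simp only [n1, mkPerm_apply, f1, mul_one, Equiv.Perm.coe_one, id_eq] at h5
    have h6 := hα k₀ (h5.trans (map_one _).symm)
    have h7 := congrArg Subtype.val h6
    rw [coc_of_mem _ _ _ _ h4] at h7
    have h8 : (sig (φ false) (K false) L (c₀, j₀))⁻¹ * g * sig (φ false) (K false) L (c₀, j₀) = 1 :=
      h7
    have h9 : g = sig (φ false) (K false) L (c₀, j₀) *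
      ((sig (φ false) (K false) L (c₀, j₀))⁻¹ * g * sig (φ false) (K false) L (c₀, j₀)) *
      (sig (φ false) (K false) L (c₀, j₀))⁻¹ := by group
    rw [h9, h8]; group
  have hinj2 : ∀ g : G true, n (Monoid.PushoutI.of true g) = 1 → g = 1 := by
    intro g hg
    have h3 : Monoid.PushoutI.of true g ∈ Ker φ K L hL := by
      refine mem_Ker_of φ K L hL α β hc (h := 1) ?_ (one_mem _)
      rw [map_one]; exact hg
    have h4 := nu_true_ker φ K L hL c₀ j₀ k₀ h3
    rw [hn, nu_true] at hg
    have h5 := congrArg (fun p => (p ((c₀, j₀, k₀), (1 : V))).2) hg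
    simp only [n2, mkPerm_apply, f2, mul_one, Equiv.Perm.coe_one, id_eq] at h5
    have h6 := hβ j₀ (h5.trans (map_one _).symm)
    have h7 := congrArg Subtype.val h6
    rw [coc_of_mem _ _ _ _ h4] at h7
    have h8 : (sig (φ true) (K true) L (c₀, k₀))⁻¹ * g * sig (φ true) (K true) L (c₀, k₀) = 1 :=
      h7
    have h9 : g = sig (φ true) (K true) L (c₀, k₀) *
      ((sig (φ true) (K true) L (c₀, k₀))⁻¹ * g * sig (φ true) (K true) L (c₀, k₀)) *
      (sig (φ true) (K true) L (c₀, k₀))⁻¹ := by group
    rw [h9, h8]; group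
  refine ⟨n.range, inferInstance, Group.fg_of_surjective hsurj, ?_, ν, ?_, ?_, ?_⟩
  · refine ⟨(Ker φ K L hL).map ν, ?_, ?_⟩
    · rw [Subgroup.finiteIndex_iff]
      intro h0
      have := Subgroup.index_map_dvd (Ker φ K L hL) hsurj
      rw [h0, zero_dvd_iff] at this
      exact (Subgroup.finiteIndex_iff.mp hkerfi) this
    · rintro _ ⟨g, hg, rfl⟩ _ ⟨h, hh, rfl⟩
      apply Subtype.ext
      exact ker_comm φ K L hL α β hc hg hh
  · rw [injective_iff_map_eq_one]
    intro g hg
    exact hinj1 g (by have := congrArg Subtype.val hg; exact this)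
  · rw [injective_iff_map_eq_one]
    intro g hg
    exact hinj2 g (by have := congrArg Subtype.val hg; exact this)
  · set S : Subgroup n.range := (ν.comp (Monoid.PushoutI.of false)).range ⊓
        (ν.comp (Monoid.PushoutI.of true)).range with hS
    let A : Subgroup n.range := (Ker φ K L hL).map ν
    have hA : A.FiniteIndex := by
      rw [Subgroup.finiteIndex_iff]
      intro h0
      have := Subgroup.index_map_dvd (Ker φ K L hL) hsurj
      rw [h0, zero_dvd_iff] at this
      exact (Subgroup.finiteIndex_iff.mp hkerfi) this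
    refine ⟨A.subgroupOf S, inferInstance, ?_⟩
    -- the translation part at the base point
    let T := A.subgroupOf S
    have hT : ∀ p : T, ∀ (o : Om (φ false) (φ true) (K false) (K true) L) (v : V),
        ((p : S) : n.range).1 (o, v) = (o, (((p : S) : n.range).1 (o, 1)).2 * v) := by
      intro p o v
      obtain ⟨g, hg, he⟩ := Subgroup.mem_subgroupOf.mp p.2
      have he' : n g = ((p : S) : n.range).1 := congrArg Subtype.val he
      rw [← he']
      exact ker_apply φ K L hL α β hc hg o v
    let h : T →* Multiplicative ℤ :=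
      { toFun := fun p => τ (((p : S) : n.range).1 ((c₀, j₀, k₀), 1)).2
        map_one' := by
          change τ ((1 : V)) = 1
          exact map_one τ
        map_mul' := by
          intro p q
          rw [← map_mul]
          congr 1
          have e : ((((p * q : T) : S) : n.range).1 ((c₀, j₀, k₀), (1 : V))) =
            (((p : S) : n.range).1 ((((q : S) : n.range).1 ((c₀, j₀, k₀), 1)))) := rfl
          rw [e, hT q, hT p, mul_one] }
    have hinj : Injective h := by
      rw [injective_iff_map_eq_one]
      intro p hp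
      obtain ⟨⟨x, hx⟩, ⟨y, hy⟩⟩ := (p : S).2
      obtain ⟨g, hg, he⟩ := Subgroup.mem_subgroupOf.mp p.2
      have he' : n g = ((p : S) : n.range).1 := congrArg Subtype.val he
      have hx' : n (Monoid.PushoutI.of false x) = ((p : S) : n.range).1 := congrArg Subtype.val hx
      have hy' : n (Monoid.PushoutI.of true y) = ((p : S) : n.range).1 := congrArg Subtype.val hy
      have hxk : x ∈ K false := nu_false_ker φ K L hL c₀ j₀ k₀
        (mem_Ker_of φ K L hL α β hc (hx'.trans he'.symm) hg)
      have hyk : y ∈ K true := nu_true_ker φ K L hL c₀ j₀ k₀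
        (mem_Ker_of φ K L hL α β hc (hy'.trans he'.symm) hg)
      have e1 : (((p : S) : n.range).1 ((c₀, j₀, k₀), (1 : V))).2 =
          α k₀ (coc (φ false) (K false) L (hL false) x (c₀, j₀)) := by
        rw [← hx', hn, nu_false]
        simp only [n1, mkPerm_apply, f1, mul_one]
      have e2 : (((p : S) : n.range).1 ((c₀, j₀, k₀), (1 : V))).2 =
          β j₀ (coc (φ true) (K true) L (hL true) y (c₀, k₀)) := by
        rw [← hy', hn, nu_true]
        simp only [n2, mkPerm_apply, f2, mul_one]
      have h3 := hτ _ _ (e1.symm.trans e2) (by rw [← e1]; exact hp)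
      have h7 := congrArg Subtype.val h3
      rw [coc_of_mem _ _ _ _ hxk] at h7
      have h8 : (sig (φ false) (K false) L (c₀, j₀))⁻¹ * x *
        sig (φ false) (K false) L (c₀, j₀) = 1 := h7
      have h9 : x = sig (φ false) (K false) L (c₀, j₀) *
        ((sig (φ false) (K false) L (c₀, j₀))⁻¹ * x * sig (φ false) (K false) L (c₀, j₀)) *
        (sig (φ false) (K false) L (c₀, j₀))⁻¹ := by group
      have h10 : x = 1 := by rw [h9, h8]; group
      rw [h10, map_one, map_one] at hx'
      apply Subtype.ext
      apply Subtype.ext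
      apply Subtype.ext
      exact hx'.symm
    exact isCyclic_of_injective h hinj

end concl

end Pool.Agent.V1122.Amalg
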