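import Mathlib

/-!
# Finite-index normal subgroups with prescribed intersection with a cyclic group
-/

namespace Pool.Agent.V1122.Amalg

open Function

section exact

variable {G : Type*} [Group G] (N : Subgroup G) [hN : N.Normal] (χ : N →* Multiplicative ℤ)

/-- the character `x ↦ χ (g x g⁻¹)` -/
noncomputable def chi (g : G) (x : N) : ℤ :=
  Multiplicative.toAdd (χ (⟨g * x * g⁻¹, hN.conj_mem _ x.2 g⟩))

lemma chi_mul (g : G) (x y : N) : chi N χ g (x * y) = chi N χ g x + chi N χ g y := by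
  rw [chi, chi, chi, ← toAdd_mul, ← map_mul]
  congr 2
  apply Subtype.ext
  simp

lemma chi_one (g : G) : chi N χ g 1 = 0 := by
  have := chi_mul N χ g 1 1
  rw [mul_one] at this
  omega

lemma chi_inv (g : G) (x : N) : chi N χ g x⁻¹ = - chi N χ g x := by
  have := chi_mul N χ g x⁻¹ x
  rw [inv_mul_cancel, chi_one] at this
  omega

lemma chi_zpow (g : G) (x : N) (n : ℤ) : chi N χ g (x ^ n) = n * chi N χ g x := by
  let h : N →* Multiplicative ℤ :=
    { toFun := fun x => Multiplicative.ofAdd (chi N χ g x)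
      map_one' := by rw [chi_one]; rfl
      map_mul' := by intro x y; rw [chi_mul]; rfl }
  have := map_zpow h x n
  have h2 : Multiplicative.ofAdd (chi N χ g (x ^ n)) =
      (Multiplicative.ofAdd (chi N χ g x)) ^ n := this
  have h3 := congrArg Multiplicative.toAdd h2
  simpa using h3

/-- `chi` depends only on the coset -/
lemma chi_coset (g : G) (n : N) (x : N) : chi N χ (g * n) x = chi N χ g x := by
  have h : (⟨g * n * x * (g * n)⁻¹, hN.conj_mem _ x.2 _⟩ : N) =
      ⟨g * n * g⁻¹, hN.conj_mem _ n.2 g⟩ * ⟨g * x * g⁻¹, hN.conj_mem _ x.2 g⟩ *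
        ⟨g * n * g⁻¹, hN.conj_mem _ n.2 g⟩⁻¹ := by
    apply Subtype.ext
    simp only [Subgroup.coe_mul, Subgroup.coe_inv]
    group
  rw [chi, h, chi, MonoidHom.map_mul, MonoidHom.map_mul, MonoidHom.map_inv,
    mul_comm (χ ⟨g * n * g⁻¹, hN.conj_mem _ n.2 g⟩), mul_inv_cancel_right]

lemma chi_conj (g y : G) (x : N) :
    chi N χ g ⟨y * x * y⁻¹, hN.conj_mem _ x.2 y⟩ = chi N χ (g * y) x := by
  rw [chi, chi]
  congr 2
  apply Subtype.ext
  simp only
  group

/-- the subgroup of elements all of whose characters are divisible by `m` -/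
def divK (m : ℤ) : Subgroup G where
  carrier := {x | ∃ h : x ∈ N, ∀ g, m ∣ chi N χ g ⟨x, h⟩}
  one_mem' := ⟨one_mem N, fun g => by
    have : (⟨1, one_mem N⟩ : N) = 1 := rfl
    rw [this, chi_one]; exact dvd_zero m⟩
  mul_mem' := by
    rintro x y ⟨hx, hx'⟩ ⟨hy, hy'⟩
    refine ⟨mul_mem hx hy, fun g => ?_⟩
    have : (⟨x * y, mul_mem hx hy⟩ : N) = ⟨x, hx⟩ * ⟨y, hy⟩ := rfl
    rw [this, chi_mul]
    exact dvd_add (hx' g) (hy' g)
  inv_mem' := by
    rintro x ⟨hx, hx'⟩
    refine ⟨inv_mem hx, fun g => ?_⟩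
    have : (⟨x⁻¹, inv_mem hx⟩ : N) = ⟨x, hx⟩⁻¹ := rfl
    rw [this, chi_inv]
    exact (dvd_neg).mpr (hx' g)

lemma divK_le (m : ℤ) : divK N χ m ≤ N := fun _ h => h.1

instance divK_normal (m : ℤ) : (divK N χ m).Normal where
  conj_mem := by
    rintro x ⟨hx, hx'⟩ y
    refine ⟨hN.conj_mem _ hx y, fun g => ?_⟩
    rw [chi_conj N χ g y ⟨x, hx⟩]
    exact hx' _

lemma divK_finiteIndex [N.FiniteIndex] {m : ℤ} (hm : m ≠ 0) : (divK N χ m).FiniteIndex := by
  have : NeZero m.natAbs := ⟨by simpa using hm⟩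
  let Ψ : N →* Multiplicative ((G ⧸ N) → ZMod m.natAbs) :=
    { toFun := fun x => Multiplicative.ofAdd fun q => ((chi N χ (Quotient.out q) x : ℤ) :
        ZMod m.natAbs)
      map_one' := by
        have : (fun q : G ⧸ N => ((chi N χ (Quotient.out q) 1 : ℤ) : ZMod m.natAbs)) = 0 := by
          funext q; rw [chi_one]; simp
        rw [this]; rfl
      map_mul' := by
        intro x y
        rw [← ofAdd_add]
        congr 1
        funext q
        rw [chi_mul, Int.cast_add]; rfl }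
  have : Finite (Multiplicative ((G ⧸ N) → ZMod m.natAbs)) :=
    inferInstanceAs (Finite ((G ⧸ N) → ZMod m.natAbs))
  have h1 : Ψ.ker.FiniteIndex := inferInstance
  have h2 : (Ψ.ker.map N.subtype).FiniteIndex := by
    rw [Subgroup.finiteIndex_iff, Subgroup.index_map_subtype]
    exact mul_ne_zero (Subgroup.finiteIndex_iff.mp h1) (Subgroup.finiteIndex_iff.mp inferInstance)
  refine Subgroup.finiteIndex_of_le (H := Ψ.ker.map N.subtype) ?_
  rintro _ ⟨x, hx, rfl⟩
  refine ⟨x.2, fun g => ?_⟩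
  have h3 : Ψ x = 1 := hx
  have h4 := congrFun (congrArg Multiplicative.toAdd h3) (QuotientGroup.mk g)
  have h5 : ((chi N χ (Quotient.out (QuotientGroup.mk g : G ⧸ N)) x : ℤ) :
      ZMod m.natAbs) = 0 := h4
  rw [ZMod.intCast_zmod_eq_zero_iff_dvd] at h5
  have h6 : (QuotientGroup.mk (Quotient.out (QuotientGroup.mk g : G ⧸ N)) : G ⧸ N) =
      QuotientGroup.mk g := Quotient.out_eq _
  have h7 := QuotientGroup.eq.mp h6
  have h8 : g = Quotient.out (QuotientGroup.mk g : G ⧸ N) *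
      (⟨_, h7⟩ : N) := by simp
  rw [h8, chi_coset]
  have h9 : (m.natAbs : ℤ) ∣ chi N χ (Quotient.out (QuotientGroup.mk g : G ⧸ N)) x := h5
  exact (Int.natAbs_dvd.mp h9)

/-- **Prescribed intersections.** -/
theorem exists_exact [N.FiniteIndex] (z : N) (hz : χ z ≠ 1) (s : ℤ) (hs : s ≠ 0) :
    ∃ K : Subgroup G, K.Normal ∧ K.FiniteIndex ∧ K ≤ N ∧
      ∀ n : ℤ, ((z : G) ^ n ∈ K ↔ s ∣ n) := by
  let U : AddSubgroup ℤ := AddSubgroup.closure (Set.range fun g : G => chi N χ g z)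
  obtain ⟨u, hu⟩ := Int.subgroup_cyclic U
  have hdvd : ∀ g, u ∣ chi N χ g z := by
    intro g
    have : chi N χ g z ∈ U := AddSubgroup.subset_closure ⟨g, rfl⟩
    rw [hu] at this
    obtain ⟨k, hk⟩ := AddSubgroup.mem_closure_singleton.mp this
    exact ⟨k, by rw [← hk, smul_eq_mul, mul_comm]⟩
  have hz1 : chi N χ 1 z ≠ 0 := by
    intro h
    apply hz
    have e : (⟨1 * (z : G) * 1⁻¹, hN.conj_mem _ z.2 1⟩ : N) = z := by
      apply Subtype.ext; simp
    rw [chi, e] at h
    exact toAdd_eq_zero.mp h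
  have hu0 : u ≠ 0 := by
    rintro rfl
    exact hz1 (zero_dvd_iff.mp (hdvd 1))
  refine ⟨divK N χ (s * u), inferInstance, divK_finiteIndex N χ (mul_ne_zero hs hu0),
    divK_le N χ _, fun n => ?_⟩
  constructor
  · rintro ⟨h, h'⟩
    have e : (⟨(z : G) ^ n, h⟩ : N) = z ^ n := by
      apply Subtype.ext; simp
    -- all elements of `U` times `n` are divisible by `s * u`
    have h1 : ∀ y ∈ U, s * u ∣ n * y := by
      intro y hy
      refine AddSubgroup.closure_induction (p := fun y _ => s * u ∣ n * y) ?_ ?_ ?_ ?_ hy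
      · rintro _ ⟨g, rfl⟩
        have := h' g
        rw [e, chi_zpow] at this
        exact this
      · simp
      · intro a b _ _ ha hb; rw [mul_add]; exact dvd_add ha hb
      · intro a _ ha; rw [mul_neg]; exact (dvd_neg).mpr ha
    have h2 : s * u ∣ n * u := h1 u (by rw [hu]; exact AddSubgroup.subset_closure rfl)
    exact Int.dvd_of_mul_dvd_mul_right hu0 h2
  · rintro ⟨t, rfl⟩
    refine ⟨zpow_mem z.2 _, fun g => ?_⟩
    have e : (⟨(z : G) ^ (s * t), zpow_mem z.2 _⟩ : N) = z ^ (s * t) := by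
      apply Subtype.ext; simp
    rw [e, chi_zpow]
    obtain ⟨w, hw⟩ := hdvd g
    exact ⟨t * w, by rw [hw]; ring⟩

end exact

end Pool.Agent.V1122.Amalg
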