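import Mathlib
import Pool.Agent.V1122.Amalg.Conclusion
import Pool.Agent.V1122.Amalg.Exact

/-!
# Finitely generated virtually abelian groups
-/

namespace Pool.Agent.V1122.Amalg

open Function

lemma comap_finiteIndex {G H : Type*} [Group G] [Group H] (f : G →* H) (K : Subgroup H)
    [K.FiniteIndex] : (K.comap f).FiniteIndex := by
  rw [Subgroup.finiteIndex_iff, Subgroup.index_comap]
  have := Subgroup.isFiniteRelIndex_of_finiteIndex (H := K) (K := f.range)
  exact Subgroup.relIndex_ne_zero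

/-- A finitely generated virtually abelian group has a normal free abelian subgroup of finite
index. -/
theorem exists_free_abelian (G : Type*) [Group G] [Group.FG G] (hG : VirtAbelian G) :
    ∃ (N : Subgroup G) (j : Type) (e : N →* (j → Multiplicative ℤ)),
      N.Normal ∧ N.FiniteIndex ∧ Injective e := by
  obtain ⟨A, hA, hcomm⟩ := hG
  let B : Subgroup G := A.normalCore
  have hBn : B.Normal := inferInstance
  have hBf : B.FiniteIndex := inferInstance
  have hBA : B ≤ A := A.normalCore_le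
  let inst : CommGroup B := { (inferInstance : Group B) with
    mul_comm := fun x y => Subtype.ext (hcomm x (hBA x.2) y (hBA y.2)) }
  have hfg : Group.FG B := Subgroup.fg_of_index_ne_zero B
  obtain ⟨ι, j, fι, fj, p, hp, e, ⟨E⟩⟩ := CommGroup.equiv_free_prod_prod_multiplicative_zmod B
  have : ∀ i, NeZero (p i ^ e i) := fun i => ⟨pow_ne_zero _ (hp i).ne_zero⟩
  let T := (i : ι) → Multiplicative (ZMod (p i ^ e i))
  have hT : Finite T := inferInstance
  let m := Nat.card T
  have hm : m ≠ 0 := Nat.card_pos.ne'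
  have hTm : ∀ t : T, t ^ m = 1 := fun t => pow_card_eq_one'
  let P : B →* B := powMonoidHom m
  have hPf : P.range.FiniteIndex := Subgroup.finiteIndex_range_powMonoidHom_of_fg B hm
  have hle : P.range.map B.subtype ≤ B := by
    rintro _ ⟨x, _, rfl⟩; exact x.2
  refine ⟨P.range.map B.subtype, j,
    (MonoidHom.fst _ _).comp (E.toMonoidHom.comp (Subgroup.inclusion hle)), ?_, ?_, ?_⟩
  · constructor
    rintro _ ⟨_, ⟨b, rfl⟩, rfl⟩ g
    refine ⟨P ⟨g * b * g⁻¹, hBn.conj_mem _ b.2 g⟩, ⟨_, rfl⟩, ?_⟩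
    simp [P]
  · rw [Subgroup.finiteIndex_iff, Subgroup.index_map_subtype]
    exact mul_ne_zero (Subgroup.finiteIndex_iff.mp hPf) (Subgroup.finiteIndex_iff.mp hBf)
  · rw [injective_iff_map_eq_one]
    rintro ⟨_, ⟨_, ⟨b, rfl⟩, rfl⟩⟩ h
    have h1 : (E (b ^ m)).1 = 1 := h
    have h2 : (E (b ^ m)).2 = 1 := by rw [map_pow, Prod.pow_snd]; exact hTm _
    have h3 : E (b ^ m) = 1 := Prod.ext h1 h2
    have h4 : b ^ m = 1 := by rw [← map_one E] at h3; exact E.injective h3
    apply Subtype.ext
    have h5 : ((b ^ m : B) : G) = 1 := congrArg Subtype.val h4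
    exact h5

lemma pow_eq_one_free {j : Type*} {x : j → Multiplicative ℤ} {n : ℤ} (hn : n ≠ 0)
    (h : x ^ n = 1) : x = 1 := by
  funext a
  have h1 := congrFun h a
  have h2 : (x a) ^ n = 1 := h1
  have h3 := congrArg Multiplicative.toAdd h2
  rw [toAdd_zpow, toAdd_one, smul_eq_mul] at h3
  rcases mul_eq_zero.mp h3 with h4 | h4
  · exact absurd h4 hn
  · exact toAdd_eq_zero.mp h4

/-- In a virtually cyclic group, a finite-index subgroup which embeds in a free abelian group is
cyclic. -/
theorem cyclic_of_free {G₀ : Type*} [Group G₀] (h₀ : VirtCyclic G₀) (M : Subgroup G₀)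
    [M.FiniteIndex] {j : Type*} (e : M →* (j → Multiplicative ℤ)) (he : Injective e) :
    IsCyclic M := by
  obtain ⟨C, hC, hcyc⟩ := h₀
  have hcomm : ∀ x y : M, x * y = y * x := fun x y => he (by rw [map_mul, map_mul, mul_comm])
  let C' : Subgroup M := C.subgroupOf M
  have hC' : C'.FiniteIndex := inferInstance
  have hn : C'.Normal := ⟨fun x hx g => by rw [hcomm g x, mul_assoc, mul_inv_cancel, mul_one]; exact hx⟩
  have hcyc' : IsCyclic C' := by
    let f : C' →* C := (Subgroup.inclusion (le_refl C)).comp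
      { toFun := fun x => ⟨((x : M) : G₀), Subgroup.mem_subgroupOf.mp x.2⟩
        map_one' := rfl
        map_mul' := fun _ _ => rfl }
    refine isCyclic_of_injective f ?_
    intro x y h
    apply Subtype.ext
    apply Subtype.ext
    have h5 := congrArg (fun z : C => (z : G₀)) h
    exact h5
  let m := C'.index
  have hm : m ≠ 0 := Subgroup.finiteIndex_iff.mp hC'
  let P : M →* C' :=
    { toFun := fun x => ⟨x ^ m, Subgroup.pow_index_mem C' x⟩
      map_one' := by apply Subtype.ext; simp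
      map_mul' := by
        intro x y
        apply Subtype.ext
        exact (show Commute x y from hcomm x y).mul_pow m }
  refine isCyclic_of_injective P ?_
  rw [injective_iff_map_eq_one]
  intro x hx
  have h1 : x ^ m = 1 := congrArg Subtype.val hx
  have h2 : e x ^ (m : ℤ) = 1 := by rw [zpow_natCast, ← map_pow, h1, map_one]
  have h3 := pow_eq_one_free (by exact_mod_cast hm) h2
  exact he (h3.trans (map_one e).symm)

/-- the hom `x ↦ r_j⁻¹ φ(x) r_j` -/
noncomputable def conjHom {G₀ G : Type*} [Group G₀] [Group G] (φ : G₀ →* G) (K : Subgroup G)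
    [hK : K.Normal] (L : Subgroup G₀) (hL : ∀ x : G₀, x ∈ L ↔ φ x ∈ K) (j : J φ K) : L →* K where
  toFun := conj φ K L hL j
  map_one' := by
    apply Subtype.ext
    change (rr φ K j)⁻¹ * φ ((1 : L) : G₀) * rr φ K j = 1
    simp
  map_mul' := by
    intro x y
    apply Subtype.ext
    change (rr φ K j)⁻¹ * φ ((x * y : L) : G₀) * rr φ K j =
      ((rr φ K j)⁻¹ * φ (x : G₀) * rr φ K j) * ((rr φ K j)⁻¹ * φ (y : G₀) * rr φ K j)
    rw [Subgroup.coe_mul, map_mul]; group

lemma conj_zpow {G₀ G : Type*} [Group G₀] [Group G] (φ : G₀ →* G) (K : Subgroup G)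
    [hK : K.Normal] (L : Subgroup G₀) (hL : ∀ x : G₀, x ∈ L ↔ φ x ∈ K) (j : J φ K) (x : L)
    (n : ℤ) : conj φ K L hL j (x ^ n) = (conj φ K L hL j x) ^ n :=
  map_zpow (conjHom φ K L hL j) x n

lemma conj_ne_one {G₀ G : Type*} [Group G₀] [Group G] (φ : G₀ →* G) (hφ : Injective φ)
    (K : Subgroup G)
    [hK : K.Normal] (L : Subgroup G₀) (hL : ∀ x : G₀, x ∈ L ↔ φ x ∈ K) (j : J φ K) {x : L}
    (hx : x ≠ 1) : conj φ K L hL j x ≠ 1 := by
  intro h
  apply hx
  have h1 : (rr φ K j)⁻¹ * φ (x : G₀) * rr φ K j = 1 := congrArg Subtype.val h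
  have h2 : φ (x : G₀) = rr φ K j * ((rr φ K j)⁻¹ * φ (x : G₀) * rr φ K j) * (rr φ K j)⁻¹ := by
    group
  rw [h1, mul_one, mul_inv_cancel] at h2
  apply Subtype.ext
  exact hφ (h2.trans (map_one φ).symm)

end Pool.Agent.V1122.Amalg
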