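import Mathlib
import Pool.Agent.V1122.Amalg.StabFG
import Pool.Agent.V1122.Amalg.VirtAb

/-!
# Virtual fibering of amalgams from characters which do not vanish on the edge group
-/

namespace Pool.Agent.V1122.Amalg

open Function

/-- `H` is *fibered*: it has a nontrivial homomorphism to `ℤ` with finitely generated kernel. -/
def Fibered (H : Type*) [Group H] : Prop :=
  ∃ χ : H →* Multiplicative ℤ, χ ≠ 1 ∧ χ.ker.FG

/-- `G` has a fibered subgroup of finite index. -/
def VirtFibered (G : Type*) [Group G] : Prop :=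
  ∃ H : Subgroup G, H.FiniteIndex ∧ Fibered H

lemma zpow_eq_one_iff' {x : Multiplicative ℤ} {n : ℤ} (hn : n ≠ 0) : x ^ n = 1 ↔ x = 1 := by
  constructor
  · intro h
    have h3 := congrArg Multiplicative.toAdd h
    rw [toAdd_zpow, toAdd_one, smul_eq_mul] at h3
    rcases mul_eq_zero.mp h3 with h4 | h4
    · exact absurd h4 hn
    · exact toAdd_eq_zero.mp h4
  · rintro rfl; exact one_zpow n

lemma zpow_symm' (x y : Multiplicative ℤ) : x ^ (Multiplicative.toAdd y) =
    y ^ (Multiplicative.toAdd x) := by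
  apply Multiplicative.toAdd.injective
  rw [toAdd_zpow, toAdd_zpow, smul_eq_mul, smul_eq_mul, mul_comm]

section side

variable {G₀ G : Type*} [Group G₀] [Group G] (φ : G₀ →* G) (K : Subgroup G) [hK : K.Normal]
  (L : Subgroup G₀) (hL : ∀ x : G₀, x ∈ L ↔ φ x ∈ K)

/-- the stabiliser in one factor -/
lemma side_stab (θ : K →* Multiplicative ℤ) (hθ : θ.ker.FG) {y : ℤ} (hy : y ≠ 0)
    (p : (G₀ ⧸ L) × J φ K) {Γ : Type*} [Group Γ] (f : G →* Γ) (S : Subgroup Γ)
    (hS : ∀ g, f g ∈ S ↔ act φ K L hL g p = p ∧ (θ (coc φ K L hL g p)) ^ y = 1) :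
    (f.range ⊓ S).FG := by
  let σ := sig φ K L p
  let κ : θ.ker →* Γ := f.comp ((MulAut.conj σ).toMonoidHom.comp (K.subtype.comp θ.ker.subtype))
  have hκ : ∀ x : θ.ker, κ x = f (σ * ((x : K) : G) * σ⁻¹) := fun x => rfl
  have h1 : Group.FG θ.ker := (Group.fg_iff_subgroup_fg _).mpr hθ
  have h2 : κ.range = f.range ⊓ S := by
    ext g
    constructor
    · rintro ⟨x, rfl⟩
      rw [hκ]
      refine Subgroup.mem_inf.mpr ⟨⟨_, rfl⟩, ?_⟩
      rw [hS]
      have h3 : σ * ((x : K) : G) * σ⁻¹ ∈ K := hK.conj_mem _ (x : K).2 σ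
      refine ⟨act_of_mem φ K L hL h3 p, ?_⟩
      have h4 : coc φ K L hL (σ * ((x : K) : G) * σ⁻¹) p = (x : K) := by
        apply Subtype.ext
        rw [coc_of_mem φ K L hL h3 p]
        change σ⁻¹ * (σ * ((x : K) : G) * σ⁻¹) * σ = ((x : K) : G)
        group
      rw [h4]
      have h5 : θ (x : K) = 1 := x.2
      rw [h5, one_zpow]
    · rintro ⟨⟨g, rfl⟩, hg⟩
      obtain ⟨h3, h4⟩ := (hS g).mp hg
      have h5 := mem_of_act φ K L hL h3
      have h6 := (zpow_eq_one_iff' hy).mp h4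
      refine ⟨⟨coc φ K L hL g p, h6⟩, ?_⟩
      rw [hκ]
      congr 1
      change σ * ((coc φ K L hL g p : K) : G) * σ⁻¹ = g
      rw [coc_of_mem φ K L hL h5 p]
      change σ * (σ⁻¹ * g * σ) * σ⁻¹ = g
      group
  rw [← h2, ← Group.fg_iff_subgroup_fg]
  exact Group.fg_range κ

lemma lamL_conj (ℓ : L) (c : G₀ ⧸ L) :
    (QuotientGroup.mk (Quotient.out c * (ℓ : G₀) * (Quotient.out c)⁻¹ * Quotient.out c) : G₀ ⧸ L)
      = c ∧ lamL L (Quotient.out c * (ℓ : G₀) * (Quotient.out c)⁻¹) c = ℓ := by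
  have h1 : (QuotientGroup.mk (Quotient.out c * (ℓ : G₀) * (Quotient.out c)⁻¹ * Quotient.out c) :
      G₀ ⧸ L) = c := by
    have e1 : (QuotientGroup.mk (Quotient.out c) : G₀ ⧸ L) = c := Quotient.out_eq _
    conv_rhs => rw [← e1]
    rw [inv_mul_cancel_right]
    refine (QuotientGroup.eq.mpr ?_).symm
    rw [inv_mul_cancel_left]
    exact ℓ.2
  refine ⟨h1, ?_⟩
  apply Subtype.ext
  change (Quotient.out (QuotientGroup.mk (Quotient.out c * (ℓ : G₀) * (Quotient.out c)⁻¹ *
    Quotient.out c) : G₀ ⧸ L))⁻¹ * (Quotient.out c * (ℓ : G₀) * (Quotient.out c)⁻¹ *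
      Quotient.out c) = (ℓ : G₀)
  rw [h1]
  group

end side

section concl

variable {G₀ : Type*} {G : Bool → Type*} [Group G₀] [∀ i, Group (G i)] (φ : ∀ i, G₀ →* G i)
  (K : ∀ i, Subgroup (G i)) [hK : ∀ i, (K i).Normal] [hKf : ∀ i, (K i).FiniteIndex]
  (L : Subgroup G₀) [hLf : L.FiniteIndex]
  (hL : ∀ i, ∀ x : G₀, x ∈ L ↔ φ i x ∈ K i) (ℓ : L) (hℓ : ∀ x : L, ∃ n : ℤ, x = ℓ ^ n)
  (θ : ∀ i, K i →* Multiplicative ℤ)

include hℓ in
theorem concl_fib (hθ1 : ∀ i, θ i ≠ 1) (hθ : ∀ i, (θ i).ker.FG)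
    (hθℓ : ∀ i (j : J (φ i) (K i)), θ i (conj (φ i) (K i) L (hL i) j ℓ) ≠ 1) :
    VirtFibered (Monoid.PushoutI φ) := by
  classical
  let X : J (φ false) (K false) → ℤ := fun j =>
    Multiplicative.toAdd (θ false (conj (φ false) (K false) L (hL false) j ℓ))
  let Y : J (φ true) (K true) → ℤ := fun j =>
    Multiplicative.toAdd (θ true (conj (φ true) (K true) L (hL true) j ℓ))
  have hX : ∀ j, X j ≠ 0 := fun j h => hθℓ false j (toAdd_eq_zero.mp h)
  have hY : ∀ j, Y j ≠ 0 := fun j h => hθℓ true j (toAdd_eq_zero.mp h)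
  let α : J (φ true) (K true) → (K false →* Multiplicative ℤ) := fun k =>
    (zpowGroupHom (Y k)).comp (θ false)
  let β : J (φ false) (K false) → (K true →* Multiplicative ℤ) := fun j =>
    (zpowGroupHom (X j)).comp (θ true)
  have hαd : ∀ k x, α k x = (θ false x) ^ (Y k) := fun k x => rfl
  have hβd : ∀ j x, β j x = (θ true x) ^ (X j) := fun j x => rfl
  have hc : ∀ (j : J (φ false) (K false)) (k : J (φ true) (K true)) (x : L),
      α k (conj (φ false) (K false) L (hL false) j x) =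
        β j (conj (φ true) (K true) L (hL true) k x) := by
    intro j k x
    obtain ⟨n, hn⟩ := hℓ x
    rw [hn, Pool.Agent.V1122.Amalg.conj_zpow, Pool.Agent.V1122.Amalg.conj_zpow, map_zpow, map_zpow]
    congr 1
    exact zpow_symm' _ _
  set ν := nu φ K L hL α β hc with hν
  let A : Bool → Subgroup (Monoid.PushoutI φ) := fun i => (Monoid.PushoutI.of i).range
  let B : Subgroup (Monoid.PushoutI φ) := (Monoid.PushoutI.base φ).range
  have hfO : Finite (Om (φ false) (φ true) (K false) (K true) L) := inferInstance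
  let ω₀ : Om (φ false) (φ true) (K false) (K true) L :=
    (QuotientGroup.mk 1, Quotient.mk _ 1, Quotient.mk _ 1)
  let W : Set (Om (φ false) (φ true) (K false) (K true) L × Multiplicative ℤ) :=
    {p | 0 ≤ Multiplicative.toAdd p.2 ∧ Multiplicative.toAdd p.2 < |X p.1.2.1 * Y p.1.2.2|}
  have hXY : ∀ j k, X j * Y k ≠ 0 := fun j k => mul_ne_zero (hX j) (hY k)
  have hWf : W.Finite := by
    have h1 : W ⊆ ⋃ o : Om (φ false) (φ true) (K false) (K true) L,
        (fun n : ℤ => (o, Multiplicative.ofAdd n)) '' (Set.Ico 0 |X o.2.1 * Y o.2.2|) := by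
      rintro ⟨o, v⟩ ⟨h1, h2⟩
      exact Set.mem_iUnion.mpr ⟨o, Multiplicative.toAdd v, ⟨h1, h2⟩, rfl⟩
    exact (Set.finite_iUnion fun o => (Set.finite_Ico _ _).image _).subset h1
  have hw₀ : (ω₀, (1 : Multiplicative ℤ)) ∈ W := by
    refine ⟨le_refl _, ?_⟩
    exact abs_pos.mpr (hXY _ _)
  have hbase : ∀ (g : G₀), ν (Monoid.PushoutI.base φ g) =
      n1 (φ false) (φ true) (K false) (K true) L (hL false) α (φ false g) := by
    intro g
    rw [← Monoid.PushoutI.of_apply_eq_base φ false, hν, nu_false]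
  have hW : ∀ x, ∃ b ∈ B, ν b x ∈ W := by
    rintro ⟨⟨c, j, k⟩, v⟩
    let n : ℤ := -(Multiplicative.toAdd v / (X j * Y k))
    obtain ⟨h1, h2⟩ := lamL_conj L (ℓ ^ n) c
    refine ⟨Monoid.PushoutI.base φ (Quotient.out c * ((ℓ ^ n : L) : G₀) * (Quotient.out c)⁻¹),
      ⟨_, rfl⟩, ?_⟩
    rw [hbase]
    simp only [n1, mkPerm_apply, f1, o1, act_base, coc_base, h1, h2]
    rw [Pool.Agent.V1122.Amalg.conj_zpow, map_zpow, hαd]
    have h3 : Multiplicative.toAdd (((θ false (conj (φ false) (K false) L (hL false) j ℓ)) ^ (Y k))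
        ^ n * v) = Multiplicative.toAdd v % (X j * Y k) := by
      rw [toAdd_mul, toAdd_zpow, toAdd_zpow, smul_eq_mul, smul_eq_mul]
      have h4 := Int.emod_add_mul_ediv (Multiplicative.toAdd v) (X j * Y k)
      change -(Multiplicative.toAdd v / (X j * Y k)) * (Y k * X j) + Multiplicative.toAdd v = _
      linear_combination -h4
    constructor
    · change 0 ≤ Multiplicative.toAdd (((θ false (conj (φ false) (K false) L (hL false) j ℓ)) ^
        (Y k)) ^ n * v)
      rw [h3]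
      exact Int.emod_nonneg _ (hXY j k)
    · change Multiplicative.toAdd (((θ false (conj (φ false) (K false) L (hL false) j ℓ)) ^
        (Y k)) ^ n * v) < |X j * Y k|
      rw [h3]
      exact Int.emod_lt_abs _ (hXY j k)
  have hB : ∀ i, B ≤ A i := by
    rintro i _ ⟨g, rfl⟩
    exact ⟨φ i g, Monoid.PushoutI.of_apply_eq_base φ i g⟩
  have hgen : ∀ P : Monoid.PushoutI φ → Prop, P 1 →
      (∀ i, ∀ a ∈ A i, ∀ g, P g → P (a * g)) → ∀ g, P g := by
    intro P h1 hm g
    have key : ∀ g : Monoid.PushoutI φ, ∀ h, P h → P (g * h) := by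
      intro g
      induction g using Monoid.PushoutI.induction_on with
      | of i g => intro h hh; exact hm i _ ⟨g, rfl⟩ h hh
      | base g => intro h hh; exact hm false _ (hB false ⟨g, rfl⟩) h hh
      | mul a b ha hb =>
        intro h hh
        rw [mul_assoc]
        exact ha _ (hb _ hh)
    have := key g 1 h1
    rwa [mul_one] at this
  have hfg : ∀ i, ∀ w ∈ W, (A i ⊓ stb ν w).FG := by
    rintro i ⟨⟨c, j, k⟩, v⟩ _
    match i with
    | false =>
      refine side_stab (φ false) (K false) L (hL false) (θ false) (hθ false) (hY k) (c, j)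
        (Monoid.PushoutI.of (φ := φ) false) _ (fun g => ?_)
      rw [mem_stb, hν, nu_false]
      simp only [n1, mkPerm_apply, f1, o1, Prod.mk.injEq, mul_eq_right, hαd, Prod.ext_iff,
        and_true]
    | true =>
      refine side_stab (φ true) (K true) L (hL true) (θ true) (hθ true) (hX j) (c, k)
        (Monoid.PushoutI.of (φ := φ) true) _ (fun g => ?_)
      rw [mem_stb, hν, nu_true]
      simp only [n2, mkPerm_apply, f2, o2, Prod.mk.injEq, mul_eq_right, hβd, Prod.ext_iff,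
        true_and]
  have hstab := stab_fg ν A B hB hgen false W hWf hW hfg (ω₀, 1) hw₀
  let H : Subgroup (Monoid.PushoutI φ) := stb (nuO φ K L hL) (ω₀, PUnit.unit)
  have hHf : H.FiniteIndex := by
    have : Finite (Equiv.Perm (Om (φ false) (φ true) (K false) (K true) L × PUnit.{1})) :=
      inferInstance
    have h1 : (nuO φ K L hL).ker.FiniteIndex := inferInstance
    refine Subgroup.finiteIndex_of_le (H := (nuO φ K L hL).ker) ?_
    intro g hg
    have h2 : nuO φ K L hL g = 1 := hg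
    rw [mem_stb, h2]; rfl
  have hH1 : ∀ {g}, g ∈ H ↔ (ν g (ω₀, 1)).1 = ω₀ := by
    intro g
    rw [hν, nu_fst, mem_stb, Prod.ext_iff]
    exact ⟨fun h => h.1, fun h => ⟨h, rfl⟩⟩
  have hH2 : ∀ {g}, g ∈ H → ν g (ω₀, 1) = (ω₀, (ν g (ω₀, 1)).2) := fun h =>
    Prod.ext (hH1.mp h) rfl
  let Φ : H →* Multiplicative ℤ :=
    { toFun := fun g => (ν g (ω₀, 1)).2
      map_one' := by
        change (ν 1 (ω₀, 1)).2 = 1
        rw [map_one]; rfl
      map_mul' := by
        intro g h
        change (ν (g * h : Monoid.PushoutI φ) (ω₀, 1)).2 = _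
        have e1 := hH2 h.2
        have e2 := nu_mul_right φ K L hL α β hc g ω₀ 1 (ν h (ω₀, 1)).2
        rw [one_mul] at e2
        rw [map_mul, Equiv.Perm.mul_apply, e1]
        exact congrArg Prod.snd e2 }
  have hΦ : ∀ g : H, Φ g = (ν g (ω₀, 1)).2 := fun g => rfl
  refine ⟨H, hHf, Φ, ?_, ?_⟩
  · intro h
    obtain ⟨x, hx⟩ : ∃ x, θ false x ≠ 1 := by
      by_contra hcon
      push Not at hcon
      exact hθ1 false (MonoidHom.ext hcon)
    let σ := sig (φ false) (K false) L (ω₀.1, ω₀.2.1)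
    have h3 : σ * (x : G false) * σ⁻¹ ∈ K false := (hK false).conj_mem _ x.2 σ
    have h4 : coc (φ false) (K false) L (hL false) (σ * (x : G false) * σ⁻¹) (ω₀.1, ω₀.2.1) =
        x := by
      apply Subtype.ext
      rw [coc_of_mem (φ false) (K false) L (hL false) h3]
      change σ⁻¹ * (σ * (x : G false) * σ⁻¹) * σ = (x : G false)
      group
    have h5 : ν (Monoid.PushoutI.of false (σ * (x : G false) * σ⁻¹)) (ω₀, 1) =
        (ω₀, (θ false x) ^ (Y ω₀.2.2)) := by
      rw [hν, nu_false]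
      simp only [n1, mkPerm_apply, f1, o1, h4, hαd, mul_one, act_of_mem _ _ _ _ h3]
    have h6 : Monoid.PushoutI.of false (σ * (x : G false) * σ⁻¹) ∈ H := by
      rw [hH1, h5]
    have h7 : Φ ⟨_, h6⟩ = 1 := by rw [h]; rfl
    rw [hΦ, h5] at h7
    exact hx ((zpow_eq_one_iff' (hY _)).mp h7)
  · have h1 : Φ.ker.map H.subtype = stb ν (ω₀, 1) := by
      ext g
      constructor
      · rintro ⟨⟨g, hg⟩, hg', rfl⟩
        have h2 : (ν g (ω₀, 1)).2 = 1 := hg'
        rw [mem_stb]
        exact Prod.ext (hH1.mp hg) h2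
      · intro hg
        rw [mem_stb] at hg
        have h2 : g ∈ H := by rw [hH1, hg]
        refine ⟨⟨g, h2⟩, ?_, rfl⟩
        change (ν g (ω₀, 1)).2 = 1
        rw [hg]
    rw [← h1] at hstab
    have h7 : Group.FG (Φ.ker.map H.subtype) := (Group.fg_iff_subgroup_fg _).mpr hstab
    have h8 : Group.FG Φ.ker :=
      Group.fg_of_surjective (f := (Φ.ker.equivMapOfInjective H.subtype
        (Subgroup.subtype_injective _)).symm.toMonoidHom)
        (Φ.ker.equivMapOfInjective H.subtype (Subgroup.subtype_injective _)).symm.surjective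
    exact (Group.fg_iff_subgroup_fg _).mp h8

end concl

end Pool.Agent.V1122.Amalg
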